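import Mathlib

/-!
# Clean boxes

`S` is a dense set of pairs `(u, v)` such that the sets `a u` and `b v` are disjoint. There is a large
box on which all pairs have this property, and on which `S` is dense.
-/

set_option autoImplicit false

namespace Pool.Agent.Helper45.RC

open Finset

variable {α β ι : Type*} [Fintype α] [Fintype ι] [DecidableEq α] [DecidableEq β] [DecidableEq ι]

/-- A dependent choice of a row. -/
theorem row_step (S Sb : Finset (α × β)) (Y : Finset β) (R σ N : ℝ) (hN : N = Fintype.card α)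
    (hR : 2 ≤ R) (hσ0 : 0 < σ) (hNpos : 0 < N) (hYpos : (0 : ℝ) < #Y) (hSbS : Sb ⊆ S)
    (hSbY : ∀ p ∈ Sb, p.2 ∈ Y) (hSb2 : (1 - 1 / (2 * R)) * (σ * (N * #Y)) ≤ #Sb) :
    ∃ (u0 : α) (Y' : Finset β), (∀ v ∈ Y', (u0, v) ∈ Sb) ∧ σ ^ 2 * #Y / (4 * R) ≤ #Y' ∧
      σ * (1 - 1 / R) * (N * #Y') ≤ #{p ∈ S | p.2 ∈ Y'} := by
  have hR0 : 0 < R := by linarith
  have h1R : 0 ≤ 1 - 1 / R := by
    rw [sub_nonneg, div_le_one hR0]; linarith
  have hpos : 0 < N * #Y := mul_pos hNpos hYpos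
  have hfib : ∀ (P : Finset (α × β)), (∀ p ∈ P, p.2 ∈ Y) → ∀ g : β → ℝ,
      ∑ p ∈ P, g p.2 = ∑ v ∈ Y, (#{p ∈ P | p.2 = v} : ℝ) * g v := by
    intro P hP g
    rw [← Finset.sum_fiberwise_of_maps_to hP]
    refine Finset.sum_congr rfl fun v _ => ?_
    rw [Finset.sum_congr rfl (g := fun _ => g v) (fun p hp => by rw [(mem_filter.1 hp).2])]
    rw [Finset.sum_const, nsmul_eq_mul]
  obtain ⟨d, hd⟩ : ∃ d : β → ℝ, ∀ v, d v = (#{p ∈ S | p.2 = v} : ℝ) := ⟨_, fun _ => rfl⟩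
  obtain ⟨db, hdb⟩ : ∃ d : β → ℝ, ∀ v, d v = (#{p ∈ Sb | p.2 = v} : ℝ) := ⟨_, fun _ => rfl⟩
  have hdle : ∀ v, db v ≤ d v := by
    intro v
    rw [hdb, hd]
    have : ({p ∈ Sb | p.2 = v} : Finset (α × β)) ⊆ {p ∈ S | p.2 = v} := by
      intro p hp
      rw [mem_filter] at hp ⊢
      exact ⟨hSbS hp.1, hp.2⟩
    exact_mod_cast Finset.card_le_card this
  have hdN : ∀ v, d v ≤ N := by
    intro v
    rw [hd, hN]
    have : #{p ∈ S | p.2 = v} ≤ Fintype.card α := by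
      rw [← Finset.card_univ]
      refine Finset.card_le_card_of_injOn (fun p => p.1) (fun _ _ => mem_coe.2 (mem_univ _)) ?_
      intro p hp q hq h
      have hp' := (mem_filter.1 (mem_coe.1 hp)).2
      have hq' := (mem_filter.1 (mem_coe.1 hq)).2
      exact Prod.ext h (hp'.trans hq'.symm)
    exact_mod_cast this
  have hsumdb : ∑ v ∈ Y, db v = #Sb := by
    have := hfib Sb hSbY (fun _ => 1)
    simp only [Finset.sum_const, nsmul_eq_mul, mul_one] at this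
    rw [this]
    exact Finset.sum_congr rfl fun v _ => hdb v
  obtain ⟨θ, hθ⟩ : ∃ θ : ℝ, θ = σ * (1 - 1 / R) := ⟨_, rfl⟩
  rw [← hθ]
  have hsum1 : (#Sb : ℝ) * (#Sb / #Y - θ * N) ≤ ∑ p ∈ Sb, (d p.2 - θ * N) := by
    have e1 : ∑ p ∈ Sb, (d p.2 - θ * N) = ∑ v ∈ Y, db v * d v - θ * N * #Sb := by
      rw [Finset.sum_sub_distrib, hfib Sb hSbY d, Finset.sum_const, nsmul_eq_mul]
      rw [Finset.sum_congr rfl fun v _ => by rw [← hdb v]]
      ring
    rw [e1]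
    have e2 : (#Sb : ℝ) ^ 2 ≤ #Y * ∑ v ∈ Y, db v ^ 2 := by
      rw [← hsumdb]
      exact sq_sum_le_card_mul_sum_sq
    have e3 : ∑ v ∈ Y, db v ^ 2 ≤ ∑ v ∈ Y, db v * d v := by
      refine Finset.sum_le_sum fun v _ => ?_
      rw [sq]
      refine mul_le_mul_of_nonneg_left (hdle v) ?_
      rw [hdb]; positivity
    have e4 : (#Sb : ℝ) * (#Sb / #Y) ≤ ∑ v ∈ Y, db v * d v := by
      refine le_trans ?_ e3
      rw [← mul_div_assoc, div_le_iff₀ hYpos]
      nlinarith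
    nlinarith
  have hSb3 : σ * N / (2 * R) ≤ #Sb / #Y - θ * N := by
    have : (1 - 1 / (2 * R)) * (σ * N) ≤ #Sb / #Y := by
      rw [le_div_iff₀ hYpos]
      linarith
    have e : σ * N / (2 * R) = (1 - 1 / (2 * R)) * (σ * N) - θ * N := by
      rw [hθ]; field_simp; ring
    linarith
  have hSb4 : σ * (N * #Y) / 2 ≤ #Sb := by
    refine le_trans ?_ hSb2
    have h1 : 1 / (2 * R) ≤ 1 / 2 := by
      rw [div_le_div_iff₀ (by positivity) (by norm_num)]; linarith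
    have h2 : 1 / 2 ≤ 1 - 1 / (2 * R) := by linarith
    calc σ * (N * #Y) / 2 = 1 / 2 * (σ * (N * #Y)) := by ring
      _ ≤ _ := mul_le_mul_of_nonneg_right h2 (by positivity)
  have hsum2 : σ ^ 2 * N ^ 2 * #Y / (4 * R) ≤ ∑ p ∈ Sb, (d p.2 - θ * N) := by
    refine le_trans ?_ hsum1
    have h1 : 0 ≤ σ * N / (2 * R) := by positivity
    calc σ ^ 2 * N ^ 2 * #Y / (4 * R) = σ * (N * #Y) / 2 * (σ * N / (2 * R)) := by
          field_simp; ring
      _ ≤ #Sb * (#Sb / #Y - θ * N) :=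
          mul_le_mul hSb4 hSb3 h1 (Nat.cast_nonneg _)
  have hsum3 : ∑ p ∈ Sb, (d p.2 - θ * N) =
      ∑ u : α, ∑ p ∈ Sb with p.1 = u, (d p.2 - θ * N) := by
    rw [Finset.sum_fiberwise]
  obtain ⟨u0, -, hu0⟩ : ∃ u ∈ (univ : Finset α),
      σ ^ 2 * N * #Y / (4 * R) ≤ ∑ p ∈ Sb with p.1 = u, (d p.2 - θ * N) := by
    have hne' : (univ : Finset α).Nonempty := by
      rw [← Finset.card_pos, Finset.card_univ]
      rw [hN] at hNpos
      exact_mod_cast hNpos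
    refine Finset.exists_le_of_sum_le hne' ?_
    rw [← hsum3, Finset.sum_const, nsmul_eq_mul, Finset.card_univ]
    refine le_trans (le_of_eq ?_) hsum2
    rw [← hN]; ring
  obtain ⟨Y', hY'⟩ : ∃ Y' : Finset β, Y' = (Sb.filter fun p => p.1 = u0).image Prod.snd :=
    ⟨_, rfl⟩
  have hinj : Set.InjOn Prod.snd ((Sb.filter fun p => p.1 = u0 : Finset (α × β)) :
      Set (α × β)) := by
    intro p hp q hq h
    have hp' := (mem_filter.1 (mem_coe.1 hp)).2
    have hq' := (mem_filter.1 (mem_coe.1 hq)).2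
    exact Prod.ext (hp'.trans hq'.symm) h
  have hsum4 : ∑ p ∈ Sb with p.1 = u0, (d p.2 - θ * N) = ∑ v ∈ Y', (d v - θ * N) := by
    rw [hY', Finset.sum_image hinj]
  rw [hsum4, Finset.sum_sub_distrib, Finset.sum_const, nsmul_eq_mul] at hu0
  have hθ0 : 0 ≤ θ := by rw [hθ]; exact mul_nonneg hσ0.le h1R
  have hY'1 : σ ^ 2 * #Y / (4 * R) ≤ #Y' := by
    have h1 : ∑ v ∈ Y', d v ≤ #Y' * N := by
      refine (Finset.sum_le_sum fun v _ => hdN v).trans (le_of_eq ?_)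
      rw [Finset.sum_const, nsmul_eq_mul]
    have h2 : σ ^ 2 * N * #Y / (4 * R) ≤ #Y' * N := by
      have : 0 ≤ (#Y' : ℝ) * (θ * N) := by positivity
      linarith
    have h3 : σ ^ 2 * #Y / (4 * R) * N ≤ #Y' * N := by
      refine le_trans (le_of_eq ?_) h2; ring
    exact le_of_mul_le_mul_right h3 hNpos
  have hY'2 : θ * (N * #Y') ≤ ∑ v ∈ Y', d v := by
    have : 0 ≤ σ ^ 2 * N * #Y / (4 * R) := by positivity
    linarith
  have hY'S : ∀ v ∈ Y', (u0, v) ∈ Sb := by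
    intro v hv
    rw [hY', mem_image] at hv
    obtain ⟨p, hp, rfl⟩ := hv
    rw [mem_filter] at hp
    have : p = (u0, p.2) := Prod.ext hp.2 rfl
    rw [← this]; exact hp.1
  have hdY : (∑ v ∈ Y', d v) = (#{p ∈ S | p.2 ∈ Y'} : ℝ) := by
    have h1 : #{p ∈ S | p.2 ∈ Y'} = ∑ v ∈ Y', #{p ∈ ({p ∈ S | p.2 ∈ Y'} : Finset (α × β)) | p.2 = v} :=
      Finset.card_eq_sum_card_fiberwise fun p hp => (mem_filter.1 (mem_coe.1 hp)).2
    rw [h1, Nat.cast_sum]
    refine Finset.sum_congr rfl fun v hv => ?_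
    rw [hd]
    congr 2
    ext p
    simp only [mem_filter]
    constructor
    · rintro ⟨h1, h2⟩
      exact ⟨⟨h1, by rw [h2]; exact hv⟩, h2⟩
    · rintro ⟨⟨h1, -⟩, h2⟩
      exact ⟨h1, h2⟩
  exact ⟨u0, Y', hY'S, hY'1, by rw [← hdY]; exact hY'2⟩

theorem clean_aux (S : Finset (α × β)) (a : α → Finset ι) (b : β → Finset ι)
    (hS : ∀ p ∈ S, Disjoint (a p.1) (b p.2)) (k R : ℕ) (hR : 2 ≤ R) (ρ B : ℝ) (hρ : 0 < ρ)
    (hρ1 : ρ ≤ 1) (hB : (#{s : Finset ι | #s ≤ k} : ℝ) ≤ B) :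
    ∀ (r : ℕ) (U : Finset ι) (Y : Finset β) (σ : ℝ), #U ≤ r * (k + 1) →
      ρ ≤ σ * (1 - 1 / (R : ℝ)) ^ r → (∀ u, ∀ v ∈ Y, a u ∩ b v ⊆ U) →
      σ * ((Fintype.card α : ℝ) * #Y) ≤ #{p ∈ S | p.2 ∈ Y} →
      ∃ (X' : Finset α) (Y' : Finset β), (∀ u ∈ X', ∀ v ∈ Y', Disjoint (a u) (b v)) ∧
        (ρ ^ 2 / (4 * R)) ^ r * (ρ / (2 * R * B)) * ((Fintype.card α : ℝ) * #Y) ≤
          #{p ∈ S | p.1 ∈ X' ∧ p.2 ∈ Y'} := by
  have hR0 : (0 : ℝ) < R := by exact_mod_cast (by omega : 0 < R)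
  have hR2 : (2 : ℝ) ≤ R := by exact_mod_cast hR
  have hne : ({s : Finset ι | #s ≤ k} : Finset (Finset ι)).Nonempty := ⟨∅, by simp⟩
  have hB1 : 1 ≤ B := by
    refine le_trans ?_ hB
    exact_mod_cast hne.card_pos
  have hq : ρ / (2 * R * B) ≤ ρ := by
    rw [div_le_iff₀ (by positivity)]
    have : 1 ≤ 2 * R * B := by nlinarith
    nlinarith
  have hc1 : ρ ^ 2 / (4 * R) ≤ 1 := by
    rw [div_le_one (by positivity)]
    nlinarith
  have h1R : 0 ≤ 1 - 1 / (R : ℝ) := by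
    rw [sub_nonneg, div_le_one hR0]; linarith
  have h1R' : 1 - 1 / (R : ℝ) ≤ 1 := by
    have : 0 ≤ 1 / (R : ℝ) := by positivity
    linarith
  intro r
  induction r with
  | zero =>
    intro U Y σ hU hρσ hUY hσ
    have hU0 : U = ∅ := by
      rw [← Finset.card_eq_zero]; omega
    refine ⟨univ, Y, ?_, ?_⟩
    · intro u _ v hv
      have := hUY u v hv
      rw [hU0, Finset.subset_empty] at this
      exact Finset.disjoint_iff_inter_eq_empty.2 this
    · have e : ({p ∈ S | p.1 ∈ (univ : Finset α) ∧ p.2 ∈ Y} : Finset (α × β)) =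
          {p ∈ S | p.2 ∈ Y} := by
        ext p; simp
      rw [e]
      refine le_trans ?_ hσ
      rw [pow_zero, one_mul]
      refine mul_le_mul_of_nonneg_right ?_ (by positivity)
      rw [pow_zero, mul_one] at hρσ
      linarith
  | succ r ih =>
    intro U Y σ hU hρσ hUY hσ
    have hσ0 : 0 < σ := by
      have hpos : 0 < σ * (1 - 1 / (R : ℝ)) ^ (r + 1) := lt_of_lt_of_le hρ hρσ
      have hp0 : 0 ≤ (1 - 1 / (R : ℝ)) ^ (r + 1) := pow_nonneg h1R _
      by_contra h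
      have h' : σ ≤ 0 := not_lt.1 h
      nlinarith
    have hσρ : ρ ≤ σ := by
      refine hρσ.trans ?_
      have := pow_le_one₀ (n := r + 1) h1R h1R'
      nlinarith
    obtain ⟨N, hN⟩ : ∃ N : ℝ, N = (Fintype.card α : ℝ) := ⟨_, rfl⟩
    rw [← hN] at hσ ⊢
    have ih' := ih
    rw [← hN] at ih'
    have hN0 : 0 ≤ N := by rw [hN]; positivity
    rcases eq_or_lt_of_le (mul_nonneg hN0 (Nat.cast_nonneg (α := ℝ) #Y)) with h0 | hpos
    · refine ⟨∅, ∅, by simp, ?_⟩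
      rw [← h0]; simp
    have hNpos : 0 < N := by
      rcases eq_or_lt_of_le hN0 with h | h
      · rw [← h] at hpos; simp at hpos
      · exact h
    have hYpos : (0 : ℝ) < #Y := by
      rcases eq_or_lt_of_le (Nat.cast_nonneg (α := ℝ) #Y) with h | h
      · rw [← h] at hpos; simp at hpos
      · exact h
    obtain ⟨SY, hSY⟩ : ∃ SY : Finset (α × β), SY = {p ∈ S | p.2 ∈ Y} := ⟨_, rfl⟩
    rw [← hSY] at hσ
    obtain ⟨Sm, hSm⟩ : ∃ Sm : Finset (α × β), Sm = {p ∈ SY | #(a p.1 ∩ U) ≤ k} := ⟨_, rfl⟩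
    obtain ⟨Sb, hSb⟩ : ∃ Sb : Finset (α × β), Sb = {p ∈ SY | ¬ #(a p.1 ∩ U) ≤ k} := ⟨_, rfl⟩
    have hSY' : ∀ p ∈ SY, p ∈ S ∧ p.2 ∈ Y := fun p hp => by
      rw [hSY, mem_filter] at hp; exact hp
    have hSb' : ∀ p ∈ Sb, p ∈ SY ∧ k + 1 ≤ #(a p.1 ∩ U) := fun p hp => by
      rw [hSb, mem_filter] at hp
      exact ⟨hp.1, by have := hp.2; omega⟩
    have hsplit : (#SY : ℝ) = #Sm + #Sb := by
      have := Finset.card_filter_add_card_filter_not (s := SY) (fun p => #(a p.1 ∩ U) ≤ k)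
      rw [← hSm, ← hSb] at this
      exact_mod_cast this.symm
    by_cases hcase : (#SY : ℝ) ≤ 2 * R * #Sm
    · -- the small case
      have hmaps : ∀ p ∈ Sm, a p.1 ∩ U ∈ ({s : Finset ι | #s ≤ k} : Finset (Finset ι)) := by
        intro p hp
        rw [mem_filter]
        rw [hSm, mem_filter] at hp
        exact ⟨mem_univ _, hp.2⟩
      obtain ⟨a0, -, ha0⟩ := Finset.exists_le_card_fiber_of_nsmul_le_card_of_maps_to
        (b := (#Sm : ℝ) / B) hmaps hne (by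
          rw [nsmul_eq_mul]
          calc (#{s : Finset ι | #s ≤ k} : ℝ) * (#Sm / B) ≤ B * (#Sm / B) :=
                mul_le_mul_of_nonneg_right hB (by positivity)
            _ = #Sm := by field_simp)
      obtain ⟨X1, hX1⟩ : ∃ X1 : Finset α, ∀ u, u ∈ X1 ↔ a u ∩ U = a0 :=
        ⟨univ.filter fun u => a u ∩ U = a0, fun u => by rw [mem_filter]; simp⟩
      obtain ⟨Y1, hY1⟩ : ∃ Y1 : Finset β, ∀ v, v ∈ Y1 ↔ v ∈ Y ∧ Disjoint a0 (b v) :=
        ⟨Y.filter fun v => Disjoint a0 (b v), fun v => by rw [mem_filter]⟩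
      refine ⟨X1, Y1, ?_, ?_⟩
      · intro u hu v hv
        rw [hX1] at hu
        rw [hY1] at hv
        rw [Finset.disjoint_left]
        intro i hi hi'
        have h1 : i ∈ U := hUY u v hv.1 (mem_inter.2 ⟨hi, hi'⟩)
        have h2 : i ∈ a0 := by rw [← hu]; exact mem_inter.2 ⟨hi, h1⟩
        exact (Finset.disjoint_left.1 hv.2) h2 hi'
      · have hsub : ({p ∈ Sm | a p.1 ∩ U = a0} : Finset (α × β)) ⊆
            {p ∈ S | p.1 ∈ X1 ∧ p.2 ∈ Y1} := by
          intro p hp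
          rw [mem_filter] at hp
          have hp1 := hp.1
          rw [hSm, mem_filter] at hp1
          have hp2 := hSY' p hp1.1
          rw [mem_filter]
          refine ⟨hp2.1, (hX1 _).2 hp.2, (hY1 _).2 ⟨hp2.2, ?_⟩⟩
          rw [← hp.2]
          exact (hS p hp2.1).mono_left inter_subset_left
        have h1 : (#{p ∈ Sm | a p.1 ∩ U = a0} : ℝ) ≤ #{p ∈ S | p.1 ∈ X1 ∧ p.2 ∈ Y1} := by
          exact_mod_cast Finset.card_le_card hsub
        refine le_trans ?_ (ha0.trans h1)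
        have h2 : ρ * (N * #Y) ≤ 2 * R * #Sm := by
          refine le_trans ?_ (hσ.trans hcase)
          exact mul_le_mul_of_nonneg_right hσρ hpos.le
        have h3 : (ρ ^ 2 / (4 * R)) ^ (r + 1) * (ρ / (2 * R * B)) * (N * #Y) ≤
            1 * (ρ / (2 * R * B)) * (N * #Y) := by
          refine mul_le_mul_of_nonneg_right (mul_le_mul_of_nonneg_right ?_ (by positivity)) hpos.le
          exact pow_le_one₀ (by positivity) hc1
        refine h3.trans ?_
        calc 1 * (ρ / (2 * R * B)) * (N * #Y) = (ρ * (N * #Y)) / (2 * R * B) := by ring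
          _ ≤ (2 * R * #Sm) / (2 * R * B) := by gcongr
          _ = #Sm / B := by field_simp
    · -- the big case
      have hcase' : 2 * R * #Sm < (#SY : ℝ) := not_le.1 hcase
      have hSb1 : (1 - 1 / (2 * (R : ℝ))) * #SY ≤ #Sb := by
        have : (#Sm : ℝ) ≤ 1 / (2 * R) * #SY := by
          rw [div_mul_eq_mul_div, le_div_iff₀ (by positivity)]
          linarith
        linarith
      have hSb2 : (1 - 1 / (2 * (R : ℝ))) * (σ * (N * #Y)) ≤ #Sb := by
        refine le_trans (mul_le_mul_of_nonneg_left hσ ?_) hSb1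
        rw [sub_nonneg, div_le_one (by positivity)]; linarith
      obtain ⟨u0, Y', hY'S, hY'1, hY'2⟩ := row_step S Sb Y R σ N hN hR2 hσ0 hNpos hYpos
        (fun p hp => (hSY' p (hSb' p hp).1).1) (fun p hp => (hSY' p (hSb' p hp).1).2) hSb2
      have hY'0 : (0 : ℝ) < #Y' := lt_of_lt_of_le (by positivity) hY'1
      have hbig : k + 1 ≤ #(a u0 ∩ U) := by
        obtain ⟨v, hv⟩ : Y'.Nonempty := by
          rw [← Finset.card_pos]; exact_mod_cast hY'0
        exact (hSb' _ (hY'S v hv)).2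
      have hU' : #(U \ a u0) ≤ r * (k + 1) := by
        have h1 : #(U \ a u0) + #(U ∩ a u0) = #U := Finset.card_sdiff_add_card_inter U (a u0)
        rw [Finset.inter_comm] at h1
        have h2 : (r + 1) * (k + 1) = r * (k + 1) + (k + 1) := by ring
        omega
      obtain ⟨X1, Y1, hX1, hm⟩ := ih' (U \ a u0) Y' (σ * (1 - 1 / R)) hU'
        (by rw [mul_assoc, ← pow_succ']; exact hρσ)
        (by
          intro u v hv i hi
          have h1 := hSY' _ (hSb' _ (hY'S v hv)).1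
          rw [mem_sdiff]
          refine ⟨hUY u v h1.2 hi, fun h4 => ?_⟩
          exact (Finset.disjoint_left.1 (hS _ h1.1)) h4 (mem_inter.1 hi).2)
        hY'2
      refine ⟨X1, Y1, hX1, le_trans ?_ hm⟩
      have h5 : ρ ^ 2 / (4 * R) * (N * #Y) ≤ N * #Y' := by
        have h6 : ρ ^ 2 * #Y / (4 * R) ≤ #Y' := by
          refine le_trans ?_ hY'1
          gcongr
        calc ρ ^ 2 / (4 * R) * (N * #Y) = N * (ρ ^ 2 * #Y / (4 * R)) := by ring
          _ ≤ _ := mul_le_mul_of_nonneg_left h6 hN0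
      calc (ρ ^ 2 / (4 * R)) ^ (r + 1) * (ρ / (2 * R * B)) * (N * #Y)
          = (ρ ^ 2 / (4 * R)) ^ r * (ρ / (2 * R * B)) * (ρ ^ 2 / (4 * R) * (N * #Y)) := by
            rw [pow_succ]; ring
        _ ≤ (ρ ^ 2 / (4 * R)) ^ r * (ρ / (2 * R * B)) * (N * #Y') :=
            mul_le_mul_of_nonneg_left h5 (by positivity)

end Pool.Agent.Helper45.RC
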