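import Pool.Agent.Helper45.RC.Clean

/-!
# Clean boxes: exponents
-/

set_option autoImplicit false

namespace Pool.Agent.Helper45.RC

open Finset

theorem card_small {ι : Type*} [Fintype ι] [DecidableEq ι] (k : ℕ) (x : ℝ) (hx : 0 < x)
    (hx1 : x ≤ 1) :
    (#{s : Finset ι | #s ≤ k} : ℝ) * x ^ k ≤ (1 + x) ^ Fintype.card ι := by
  have h1 := Finset.sum_pow_mul_eq_add_pow x 1 (univ : Finset ι)
  rw [Finset.powerset_univ, Finset.card_univ, add_comm x 1] at h1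
  rw [← h1]
  calc (#{s : Finset ι | #s ≤ k} : ℝ) * x ^ k = ∑ s : Finset ι with #s ≤ k, x ^ k := by
        rw [Finset.sum_const, nsmul_eq_mul]
    _ ≤ ∑ s : Finset ι with #s ≤ k, x ^ #s * 1 ^ (Fintype.card ι - #s) := by
        refine Finset.sum_le_sum fun s hs => ?_
        rw [mem_filter] at hs
        rw [one_pow, mul_one]
        exact pow_le_pow_of_le_one hx.le hx1 hs.2
    _ ≤ _ := by
        refine Finset.sum_le_sum_of_subset_of_nonneg (Finset.filter_subset _ _) ?_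
        intro s _ _
        positivity

theorem one_add_le_two_rpow (x : ℝ) (hx : 0 ≤ x) : 1 + x ≤ (2 : ℝ) ^ (2 * x) := by
  have h1 : 1 + x ≤ Real.exp x := by
    have := Real.add_one_le_exp x; linarith
  refine h1.trans ?_
  rw [Real.rpow_def_of_pos (by norm_num)]
  refine Real.exp_le_exp.2 ?_
  have := Real.log_two_gt_d9
  nlinarith

theorem one_sub_pow (h : ℕ) (hh : 1 ≤ h) : (1 / 4 : ℝ) ≤ (1 - 1 / ((2 * h : ℕ) : ℝ)) ^ (2 * h) := by
  have hh' : (1 : ℝ) ≤ h := by exact_mod_cast hh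
  have h1 := one_add_mul_le_pow (a := -(1 / ((2 * h : ℕ) : ℝ))) (by
    have : (1 : ℝ) / ((2 * h : ℕ) : ℝ) ≤ 1 := by
      rw [div_le_one (by positivity)]; push_cast; linarith
    linarith) h
  have h2 : 1 + (h : ℝ) * -(1 / ((2 * h : ℕ) : ℝ)) = 1 / 2 := by
    push_cast; field_simp; norm_num
  rw [h2] at h1
  rw [mul_comm 2 h, pow_mul]
  calc (1 / 4 : ℝ) = (1 / 2) ^ 2 := by norm_num
    _ ≤ ((1 + -(1 / ((2 * h : ℕ) : ℝ))) ^ h) ^ 2 := pow_le_pow_left₀ (by norm_num) h1 2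
    _ = _ := by rw [mul_comm h 2]; ring

/-- **Clean boxes.** -/
theorem clean_box {α β : Type*} [Fintype α] [DecidableEq α] [Fintype β] [DecidableEq β]
    (n T w q : ℕ) (hα : Fintype.card α = 2 ^ n) (hβ : Fintype.card β = 2 ^ n) (S : Finset (α × β))
    (a : α → Finset (Fin T)) (b : β → Finset (Fin T)) (hS : ∀ p ∈ S, Disjoint (a p.1) (b p.2))
    (hw : 1 ≤ w) (hq : 1 ≤ q) (hT : T ≤ w * n) (hn : 1484 * (w * q) ^ 4 * q ≤ n)
    (hd : (2 : ℝ) ^ (-((n : ℝ) / (132 * w ^ 2 * q ^ 3))) * 4 ^ n ≤ #S) :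
    ∃ (X : Finset α) (Y : Finset β), (∀ u ∈ X, ∀ v ∈ Y, Disjoint (a u) (b v)) ∧
      (2 : ℝ) ^ (-((n : ℝ) / q)) * 4 ^ n ≤ #{p ∈ S | p.1 ∈ X ∧ p.2 ∈ Y} := by
  obtain ⟨W, hW⟩ : ∃ W : ℕ, W = w * q := ⟨_, rfl⟩
  have hW1 : 1 ≤ W := by rw [hW]; exact Nat.mul_pos hw hq
  obtain ⟨m, hm⟩ : ∃ m : ℕ, m = W + 3 := ⟨_, rfl⟩
  obtain ⟨k, hk⟩ : ∃ k : ℕ, k = n / (4 * q * m) := ⟨_, rfl⟩
  obtain ⟨R, hR⟩ : ∃ R : ℕ, R = 2 * (8 * W ^ 2) := ⟨_, rfl⟩
  obtain ⟨e, he⟩ : ∃ e : ℝ, e = (n : ℝ) / (132 * w ^ 2 * q ^ 3) := ⟨_, rfl⟩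
  rw [← he] at hd
  have hwR : (1 : ℝ) ≤ w := by exact_mod_cast hw
  have hqR : (1 : ℝ) ≤ q := by exact_mod_cast hq
  have hWR : (1 : ℝ) ≤ W := by exact_mod_cast hW1
  have hWe : (W : ℝ) = w * q := by rw [hW]; push_cast; ring
  have he0 : 0 ≤ e := by rw [he]; positivity
  have hn0 : (0 : ℝ) ≤ n := Nat.cast_nonneg _
  have hW2 : 1 ≤ W ^ 2 := Nat.one_le_pow _ _ hW1
  have hR2 : 2 ≤ R := by omega
  have hRR : (R : ℝ) = 16 * W ^ 2 := by rw [hR]; push_cast; ring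
  have hm1 : 1 ≤ m := by omega
  have hm4 : m ≤ 4 * W := by omega
  have hqm : 0 < 4 * q * m := by positivity
  -- the number of rounds
  have hTR : T ≤ R * (k + 1) := by
    have h1 : n < (4 * q * m) * (k + 1) := by
      rw [hk]; exact Nat.lt_mul_div_succ n hqm
    have h2 : 4 * q * m * (k + 1) ≤ 4 * q * (4 * W) * (k + 1) := by gcongr
    have h3 : w * n ≤ w * (4 * q * (4 * W) * (k + 1)) := Nat.mul_le_mul_left _ (by omega)
    refine hT.trans (h3.trans (le_of_eq ?_))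
    rw [hR, hW]; ring
  have hmk : (m : ℝ) * k ≤ n / (4 * q) := by
    have h1 : (4 * q * m) * k ≤ n := by rw [hk]; exact Nat.mul_div_le n _
    have h2 : (4 * (q : ℝ) * m) * k ≤ n := by exact_mod_cast h1
    rw [le_div_iff₀ (by positivity)]
    linarith
  -- the weight
  obtain ⟨x, hx⟩ : ∃ x : ℝ, x = (1 / 2) ^ m := ⟨_, rfl⟩
  have hx0 : 0 < x := by rw [hx]; positivity
  have hx1 : x ≤ 1 := by rw [hx]; exact pow_le_one₀ (by norm_num) (by norm_num)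
  have hxW : x * (8 * W) ≤ 1 := by
    rw [hx, hm, one_div, inv_pow]
    have h1 : (W : ℝ) ≤ 2 ^ W := by exact_mod_cast Nat.lt_two_pow_self.le
    have h2 : (2 : ℝ) ^ (W + 3) = 2 ^ W * 8 := by rw [pow_add]; norm_num
    rw [h2, inv_mul_le_iff₀ (by positivity)]
    linarith
  have hxT : 2 * x * T ≤ n / (4 * q) := by
    have h1 : (T : ℝ) ≤ w * n := by exact_mod_cast hT
    have h2 : x * (8 * (w * q)) ≤ 1 := by rw [← hWe]; exact hxW
    rw [le_div_iff₀ (by positivity)]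
    calc 2 * x * T * (4 * q) ≤ 2 * x * (w * n) * (4 * q) := by gcongr
      _ = (x * (8 * (w * q))) * n := by ring
      _ ≤ 1 * n := by gcongr
      _ = n := one_mul _
  obtain ⟨B, hB⟩ : ∃ B : ℝ, B = (2 : ℝ) ^ ((n : ℝ) / (4 * q) + n / (4 * q)) := ⟨_, rfl⟩
  have hcard : (#{s : Finset (Fin T) | #s ≤ k} : ℝ) ≤ B := by
    have h1 := card_small (ι := Fin T) k x hx0 hx1
    rw [Fintype.card_fin] at h1
    have h2 : (1 + x) ^ T ≤ (2 : ℝ) ^ (2 * x * T) := by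
      calc (1 + x) ^ T ≤ ((2 : ℝ) ^ (2 * x)) ^ T :=
            pow_le_pow_left₀ (by positivity) (one_add_le_two_rpow x hx0.le) T
        _ = _ := by rw [← Real.rpow_mul_natCast (by norm_num)]
    have h3 : (x ^ k : ℝ) = (2 : ℝ) ^ (-((m : ℝ) * k)) := by
      rw [Real.rpow_neg (by norm_num), ← Nat.cast_mul, Real.rpow_natCast, hx, one_div, inv_pow,
        inv_pow, ← pow_mul]
    rw [h3] at h1
    have h4 : (#{s : Finset (Fin T) | #s ≤ k} : ℝ) ≤ (2 : ℝ) ^ (2 * x * T) * 2 ^ ((m : ℝ) * k) := by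
      have h5 : (0 : ℝ) < 2 ^ (-((m : ℝ) * k)) := by positivity
      refine le_of_mul_le_mul_right ?_ h5
      rw [mul_assoc, ← Real.rpow_add (by norm_num), add_neg_cancel, Real.rpow_zero, mul_one]
      exact h1.trans h2
    refine h4.trans ?_
    rw [← Real.rpow_add (by norm_num), hB]
    exact Real.rpow_le_rpow_of_exponent_le (by norm_num) (add_le_add hxT hmk)
  obtain ⟨σ, hσ⟩ : ∃ σ : ℝ, σ = (2 : ℝ) ^ (-e) := ⟨_, rfl⟩
  have hσ0 : 0 < σ := by rw [hσ]; positivity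
  have hσ1 : σ ≤ 1 := by
    rw [hσ]; exact Real.rpow_le_one_of_one_le_of_nonpos (by norm_num) (by linarith)
  have h4n : (4 : ℝ) ^ n = 2 ^ n * 2 ^ n := by rw [← mul_pow]; norm_num
  obtain ⟨X, Y, hXY, hmass⟩ := clean_aux S a b hS k R hR2 (σ / 4) B (by positivity) (by linarith)
    hcard R univ univ σ (by rw [Finset.card_univ, Fintype.card_fin]; exact hTR)
    (by
      have := one_sub_pow (8 * W ^ 2) (by omega)
      rw [← hR] at this
      have h2 := mul_le_mul_of_nonneg_left this hσ0.le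
      linarith)
    (fun _ _ _ => Finset.subset_univ _)
    (by
      rw [Finset.card_univ, hα, hβ]
      push_cast
      rw [← h4n]
      have : ({p ∈ S | p.2 ∈ (univ : Finset β)} : Finset (α × β)) = S := by
        ext p; simp
      rw [this, hσ]
      exact hd)
  refine ⟨X, Y, hXY, le_trans ?_ hmass⟩
  rw [Finset.card_univ, hα, hβ]
  push_cast
  rw [← h4n]
  refine mul_le_mul_of_nonneg_right ?_ (by positivity)
  -- the exponents
  have hR0 : (0 : ℝ) < R := by exact_mod_cast (by omega : 0 < R)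
  have hR2' : (R : ℝ) ≤ 2 ^ (R : ℝ) := by
    rw [Real.rpow_natCast]; exact_mod_cast Nat.lt_two_pow_self.le
  have hσ4 : σ / 4 = (2 : ℝ) ^ (-(e + 2)) := by
    rw [hσ, neg_add, Real.rpow_add (by norm_num), Real.rpow_neg (by norm_num) 2]
    norm_num
    ring
  have f1 : (2 : ℝ) ^ (-(2 * e + R + 6)) ≤ (σ / 4) ^ 2 / (4 * R) := by
    rw [le_div_iff₀ (by positivity), hσ4, ← Real.rpow_mul_natCast (by norm_num)]
    calc (2 : ℝ) ^ (-(2 * e + R + 6)) * (4 * R) ≤ 2 ^ (-(2 * e + R + 6)) * (4 * 2 ^ (R : ℝ)) := by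
          gcongr
      _ = 2 ^ (-(e + 2) * ((2 : ℕ) : ℝ)) := by
          rw [show (4 : ℝ) = 2 ^ (2 : ℝ) by norm_num, ← Real.rpow_add (by norm_num),
            ← Real.rpow_add (by norm_num)]
          congr 1
          push_cast
          ring
  have f2 : (2 : ℝ) ^ (-(e + R + 3 + (n / (4 * q) + n / (4 * q)))) ≤ σ / 4 / (2 * R * B) := by
    have hB0 : 0 < B := by rw [hB]; positivity
    rw [le_div_iff₀ (by positivity), hσ4]
    calc (2 : ℝ) ^ (-(e + R + 3 + ((n : ℝ) / (4 * q) + n / (4 * q)))) * (2 * R * B)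
        ≤ 2 ^ (-(e + R + 3 + ((n : ℝ) / (4 * q) + n / (4 * q)))) * (2 * 2 ^ (R : ℝ) * B) := by
          gcongr
      _ = 2 ^ (-(e + 2)) := by
          rw [hB]
          nth_rewrite 2 [show (2 : ℝ) = 2 ^ (1 : ℝ) by norm_num]
          rw [← Real.rpow_add (by norm_num), ← Real.rpow_add (by norm_num),
            ← Real.rpow_add (by norm_num)]
          congr 1
          ring
  have f3 : (2 : ℝ) ^ (-(2 * e + R + 6) * R) ≤ ((σ / 4) ^ 2 / (4 * R)) ^ R := by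
    rw [Real.rpow_mul_natCast (by norm_num)]
    exact pow_le_pow_left₀ (by positivity) f1 R
  refine le_trans ?_ (mul_le_mul f3 f2 (by positivity) (by positivity))
  rw [← Real.rpow_add (by norm_num)]
  refine Real.rpow_le_rpow_of_exponent_le (by norm_num) ?_
  have g1 : (2 * (R : ℝ) + 1) * e ≤ n / (4 * q) := by
    rw [he, hRR, hWe, le_div_iff₀ (by positivity), mul_div_assoc', div_mul_eq_mul_div,
      div_le_iff₀ (by positivity)]
    have h1 : (1 : ℝ) ≤ (w * q) ^ 2 := by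
      have : (1 : ℝ) ≤ w * q := by rw [← hWe]; exact hWR
      nlinarith
    have h2 : (2 * (16 * ((w : ℝ) * q) ^ 2) + 1) ≤ 33 * (w * q) ^ 2 := by linarith
    calc (2 * (16 * ((w : ℝ) * q) ^ 2) + 1) * n * (4 * q)
        ≤ (33 * (w * q) ^ 2) * n * (4 * q) := by gcongr
      _ = (n : ℝ) * (132 * w ^ 2 * q ^ 3) := by ring
  have g2 : (R : ℝ) ^ 2 + 7 * R + 3 ≤ n / (4 * q) := by
    rw [le_div_iff₀ (by positivity), hRR]
    have h1 : (1484 * ((w : ℝ) * q) ^ 4 * q) ≤ n := by exact_mod_cast hn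
    rw [← hWe] at h1
    have h2 : (1 : ℝ) ≤ (W : ℝ) ^ 2 := one_le_pow₀ hWR
    have h3 : (W : ℝ) ^ 2 ≤ W ^ 4 := pow_le_pow_right₀ hWR (by norm_num)
    have h5 : (1 : ℝ) ≤ (W : ℝ) ^ 4 := one_le_pow₀ hWR
    have h4 : (16 * (W : ℝ) ^ 2) ^ 2 + 7 * (16 * W ^ 2) + 3 ≤ 371 * W ^ 4 := by
      have h6 : (16 * (W : ℝ) ^ 2) ^ 2 = 256 * W ^ 4 := by ring
      rw [h6]
      linarith
    calc ((16 * (W : ℝ) ^ 2) ^ 2 + 7 * (16 * W ^ 2) + 3) * (4 * q) ≤ 371 * W ^ 4 * (4 * q) := by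
          gcongr
      _ = 1484 * (W : ℝ) ^ 4 * q := by ring
      _ ≤ (n : ℝ) := h1
  have g3 : (n : ℝ) / q = n / (4 * q) + n / (4 * q) + n / (4 * q) + n / (4 * q) := by
    field_simp; norm_num
  rw [g3]
  nlinarith

end Pool.Agent.Helper45.RC
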