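import Pool.Agent.Helper45.RC.Tree

/-!
# Corners in decided sets
-/

set_option autoImplicit false

namespace Pool.Agent.Helper45.RC

open Finset Pool.Agent.Helper45.AE

variable {n : ℕ}

/-- the final constant -/
def bigD : ℕ := 30 * 132 ^ 26 * 2 ^ 53 * (7 * bigC) ^ 54

theorem bigD_ge : 107 ≤ bigD := by
  unfold bigD
  have h1 : 1 ≤ (7 * bigC) ^ 54 := Nat.one_le_pow _ _ (by have := bigC_pos; omega)
  calc 107 ≤ 30 * 132 ^ 26 * 2 ^ 53 * 1 := by norm_num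
    _ ≤ _ := Nat.mul_le_mul_left _ h1

attribute [local irreducible] bigC

theorem cc_ge (ε t : ℝ) (hε : 0 < ε) (hε1 : ε ≤ 1) (ht : 1 ≤ t) :
    (ε / t) ^ bigD / bigD ≤ cc ⌈t⌉₊ ⌈6 * bigC / ε⌉₊ := by
  obtain ⟨a, ha⟩ : ∃ a : ℝ, a = t / ε := ⟨_, rfl⟩
  obtain ⟨w, hw⟩ : ∃ w : ℕ, w = ⌈t⌉₊ := ⟨_, rfl⟩
  obtain ⟨q, hq⟩ : ∃ q : ℕ, q = ⌈6 * bigC / ε⌉₊ := ⟨_, rfl⟩
  obtain ⟨b, hb⟩ : ∃ b : ℝ, b = (bigC : ℝ) := ⟨_, rfl⟩
  rw [← hw, ← hq]
  rw [← hb] at hq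
  have hb1 : 1 ≤ b := by rw [hb]; exact_mod_cast bigC_pos
  have hta : t ≤ a := by
    rw [ha, le_div_iff₀ hε]; nlinarith
  have hεa : 1 / ε ≤ a := by
    rw [ha]; gcongr
  have ha1 : 1 ≤ a := ht.trans hta
  have hw2 : (w : ℝ) ≤ 2 * a := by
    have := (Nat.ceil_lt_add_one (by linarith : 0 ≤ t)).le
    rw [← hw] at this
    linarith
  have hw1 : (1 : ℝ) ≤ w := by
    have := Nat.le_ceil t
    rw [← hw] at this
    linarith
  have hq2 : (q : ℝ) ≤ 7 * b * a := by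
    have := (Nat.ceil_lt_add_one (by positivity : 0 ≤ 6 * b / ε)).le
    rw [← hq] at this
    have h2 : 6 * b / ε ≤ 6 * b * a := by
      calc 6 * b / ε = 6 * b * (1 / ε) := by ring
        _ ≤ _ := by gcongr
    have h3 : 1 ≤ b * a := by nlinarith
    linarith
  have hq1 : (1 : ℝ) ≤ q := by
    have := Nat.le_ceil (6 * b / ε)
    rw [← hq] at this
    have h2 : 1 ≤ 6 * b / ε := by rw [le_div_iff₀ hε]; nlinarith
    linarith
  have hcc : cc w q = 1 / (30 * 132 ^ 26 * (w : ℝ) ^ 53 * (q : ℝ) ^ 54) := by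
    unfold cc gf
    congr 1
    push_cast
    ring
  rw [hcc, div_le_div_iff₀ (by have := bigD_ge; positivity) (by positivity), one_mul]
  have h1 : 30 * 132 ^ 26 * (w : ℝ) ^ 53 * (q : ℝ) ^ 54 ≤ bigD * a ^ 107 := by
    calc 30 * 132 ^ 26 * (w : ℝ) ^ 53 * (q : ℝ) ^ 54
        ≤ 30 * 132 ^ 26 * (2 * a) ^ 53 * (7 * b * a) ^ 54 := by gcongr
      _ = (30 * 132 ^ 26 * 2 ^ 53 * (7 * b) ^ 54) * a ^ 107 := by ring
      _ = bigD * a ^ 107 := by rw [hb]; unfold bigD; push_cast; ring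
  have h2 : (ε / t) ^ bigD ≤ (ε / t) ^ 107 := by
    refine pow_le_pow_of_le_one (by positivity) ?_ bigD_ge
    rw [div_le_one (by linarith)]; linarith
  have h3 : ε / t * a = 1 := by rw [ha]; field_simp
  calc (ε / t) ^ bigD * (30 * 132 ^ 26 * (w : ℝ) ^ 53 * (q : ℝ) ^ 54)
      ≤ (ε / t) ^ 107 * (bigD * a ^ 107) := mul_le_mul h2 h1 (by positivity) (by positivity)
    _ = bigD * (ε / t * a) ^ 107 := by ring
    _ = bigD := by rw [h3, one_pow, mul_one]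

theorem cc_le {w q : ℕ} (hw : 1 ≤ w) (hq : 1 ≤ q) : cc w q * (30 * q) ≤ 1 := by
  have hq1 : 1 ≤ gf w q := gf_pos hw hq
  have hq2 : 1 ≤ gf w (gf w q) := gf_pos hw hq1
  have hq3 : q ≤ gf w (gf w (gf w q)) := (le_gf hw).trans ((le_gf hw).trans (le_gf hw))
  obtain ⟨q3, hq3e⟩ : ∃ q3, q3 = gf w (gf w (gf w q)) := ⟨_, rfl⟩
  unfold cc
  rw [← hq3e] at hq3 ⊢
  have h1 : (1 : ℝ) ≤ w := by exact_mod_cast hw
  have h2 : (q : ℝ) ≤ q3 := by exact_mod_cast hq3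
  have h3 : (1 : ℝ) ≤ q := by exact_mod_cast hq
  have h4 : (1 : ℝ) ≤ q3 := by linarith
  rw [div_mul_eq_mul_div, div_le_one (by positivity), one_mul]
  have h5 : (q3 : ℝ) ≤ q3 ^ 2 := by nlinarith
  calc (30 : ℝ) * q ≤ 30 * q3 := by linarith
    _ ≤ 30 * 1 * (q3 : ℝ) ^ 2 := by linarith
    _ ≤ 30 * w * (q3 : ℝ) ^ 2 := by gcongr

/-- **Boxes and corners in decided sets.** -/
theorem decided_box {ε t M c : ℝ} {s T : ℕ} (hε : 0 < ε) (hε1 : ε ≤ 1) (ht : 1 ≤ t)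
    (hc : c = (ε / t) ^ bigD / bigD) (hM : 1 ≤ M) (hM2 : M ≤ (2 : ℝ) ^ (c * n))
    (hs : (s : ℝ) ≤ c * n) (hT : (T : ℝ) ≤ t * n) {E : Finset (V n × V n)} (h : Decided M s T E)
    (hn : 1 ≤ c * n) (hE : (2 : ℝ) ^ (-(c * n)) ≤ density E) :
    (∃ X Y Z : Finset (V n), box X Y Z ⊆ E ∧ (2 : ℝ) ^ (-(ε * n / 2)) ≤ density (box X Y Z)) ∧
      (2 : ℝ) ^ (-(ε * n / 2)) * 8 ^ n ≤ corners E ∧ 4 < ε * n := by
  obtain ⟨w, hw⟩ : ∃ w : ℕ, w = ⌈t⌉₊ := ⟨_, rfl⟩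
  obtain ⟨q, hq⟩ : ∃ q : ℕ, q = ⌈6 * bigC / ε⌉₊ := ⟨_, rfl⟩
  have hb1 : (1 : ℝ) ≤ bigC := by exact_mod_cast bigC_pos
  have hcle : c ≤ cc w q := by rw [hc, hw, hq]; exact cc_ge ε t hε hε1 ht
  have hn0 : (0 : ℝ) ≤ n := Nat.cast_nonneg _
  have hwt : t ≤ w := by rw [hw]; exact Nat.le_ceil t
  have hw1 : 1 ≤ w := by
    have : (1 : ℝ) ≤ w := ht.trans hwt
    exact_mod_cast this
  have hqb : 6 * bigC / ε ≤ q := by rw [hq]; exact Nat.le_ceil _
  have hq6 : (6 : ℝ) ≤ q := by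
    refine le_trans ?_ hqb
    rw [le_div_iff₀ hε]; nlinarith
  have hq1 : 1 ≤ q := by
    have : (1 : ℝ) ≤ q := by linarith
    exact_mod_cast this
  have hcn : c * n ≤ cc w q * n := mul_le_mul_of_nonneg_right hcle hn0
  have hccle := cc_le hw1 hq1
  have hcc0 : 0 ≤ cc w q := by unfold cc; positivity
  have hc0 : 0 ≤ c := by rw [hc]; positivity
  have hq0 : (0 : ℝ) < q := by linarith
  have hcq : c * n ≤ n / q := by
    rw [le_div_iff₀ hq0]
    have : cc w q * q ≤ 1 := by nlinarith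
    have h2 : c * q ≤ 1 := (mul_le_mul_of_nonneg_right hcle hq0.le).trans this
    calc c * n * q = (c * q) * n := by ring
      _ ≤ 1 * n := by gcongr
      _ = n := one_mul _
  have hnq : 1 ≤ (n : ℝ) / q := hn.trans hcq
  have h4n : (0 : ℝ) < 4 ^ n := by positivity
  have hE' : (2 : ℝ) ^ (-(cc w q * n)) * 4 ^ n ≤ #E := by
    have h1 : (2 : ℝ) ^ (-(cc w q * n)) ≤ density E :=
      (Real.rpow_le_rpow_of_exponent_le (by norm_num) (by linarith)).trans hE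
    unfold density at h1
    rwa [le_div_iff₀ h4n] at h1
  obtain ⟨L', h1, h2, h3⟩ := decided_lifted h hw1 hq1
    (by
      have h2 : (T : ℝ) ≤ w * n := hT.trans (mul_le_mul_of_nonneg_right hwt hn0)
      exact_mod_cast h2) (hs.trans hcn) (hn.trans hcn) hE'
  have hdL : (2 : ℝ) ^ (-((n : ℝ) / q)) ≤ density L' := by
    unfold density
    rw [le_div_iff₀ h4n]; exact h3
  have hkey : (2 : ℝ) ^ (-(ε * n / 2)) ≤ (density L' / (2 * M)) ^ bigC := by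
    have h5 : (2 : ℝ) ^ (-(3 * ((n : ℝ) / q))) ≤ density L' / (2 * M) := by
      rw [le_div_iff₀ (by positivity)]
      calc (2 : ℝ) ^ (-(3 * ((n : ℝ) / q))) * (2 * M)
          ≤ (2 : ℝ) ^ (-(3 * ((n : ℝ) / q))) * (2 ^ ((n : ℝ) / q) * 2 ^ ((n : ℝ) / q)) := by
            gcongr
            · calc (2 : ℝ) = 2 ^ (1 : ℝ) := by norm_num
                _ ≤ _ := Real.rpow_le_rpow_of_exponent_le (by norm_num) hnq
            · exact hM2.trans (Real.rpow_le_rpow_of_exponent_le (by norm_num) hcq)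
        _ = (2 : ℝ) ^ (-((n : ℝ) / q)) := by
            rw [← Real.rpow_add (by norm_num), ← Real.rpow_add (by norm_num)]
            congr 1; ring
        _ ≤ density L' := hdL
    refine le_trans ?_ (pow_le_pow_left₀ (by positivity) h5 bigC)
    rw [← Real.rpow_mul_natCast (by norm_num)]
    refine Real.rpow_le_rpow_of_exponent_le (by norm_num) ?_
    have h6 : 6 * (bigC : ℝ) * (n / q) ≤ ε * n := by
      rw [div_le_iff₀ hε] at hqb
      rw [← mul_div_assoc, div_le_iff₀ hq0]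
      calc 6 * (bigC : ℝ) * n ≤ q * ε * n := by gcongr
        _ = ε * n * q := by ring
    linarith
  refine ⟨?_, ?_, ?_⟩
  · obtain ⟨X, Y, Z, h5, h6⟩ := lift_box L' M hM h1
    refine ⟨X, Y, Z, h5.trans h2, ?_⟩
    unfold density
    rw [le_div_iff₀ h4n]
    exact (mul_le_mul_of_nonneg_right hkey h4n.le).trans h6
  · have h5 := lift_corners L' M hM h1
    have h6 : (corners L' : ℝ) ≤ corners E := by exact_mod_cast corners_mono h2
    exact (mul_le_mul_of_nonneg_right hkey (by positivity)).trans (h5.trans h6)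
  · have h5 : 1 ≤ cc w q * n := hn.trans hcn
    have h6 : 30 * (q : ℝ) ≤ n := by
      calc 30 * (q : ℝ) ≤ (cc w q * n) * (30 * q) := by nlinarith
        _ = (cc w q * (30 * q)) * n := by ring
        _ ≤ 1 * n := by gcongr
        _ = n := one_mul _
    rw [div_le_iff₀ hε] at hqb
    nlinarith

theorem decided_cover {ε t M c : ℝ} {s T K : ℕ} (hε : 0 < ε) (hε1 : ε ≤ 1) (ht : 1 ≤ t)
    (hc : c = (ε / t) ^ bigD / bigD) (hM : 1 ≤ M) (hM2 : M ≤ (2 : ℝ) ^ (c * n))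
    (hs : (s : ℝ) ≤ c * n) (hT : (T : ℝ) ≤ t * n) (A : Finset (V n × V n))
    (E : Fin K → Finset (V n × V n)) (hA : CornerFree A) (hE : ∀ i, Decided M s T (E i))
    (hEA : ∀ i, (#(E i \ A) : ℝ) ≤ (2 : ℝ) ^ (-(ε * n)) * 4 ^ n) (hcov : ∀ p ∈ A, ∃ i, p ∈ E i) :
    (#A : ℝ) ≤ 2 * K * (2 : ℝ) ^ (-(c * n)) * 4 ^ n := by
  classical
  have h4n : (0 : ℝ) < 4 ^ n := by positivity
  have h2n : (0 : ℝ) < 2 ^ n := by positivity
  have hn0 : (0 : ℝ) ≤ n := Nat.cast_nonneg _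
  have h1 : A ⊆ univ.biUnion E := fun p hp => by
    obtain ⟨i, hi⟩ := hcov p hp
    exact mem_biUnion.2 ⟨i, mem_univ _, hi⟩
  have h2 : (#A : ℝ) ≤ ∑ i, (#(E i) : ℝ) := by
    have := (Finset.card_le_card h1).trans Finset.card_biUnion_le
    exact_mod_cast this
  have key : ∀ i, (#(E i) : ℝ) ≤ 2 * (2 : ℝ) ^ (-(c * n)) * 4 ^ n := by
    intro i
    by_cases hn : 1 ≤ c * n
    · by_contra hcon
      have hcon' := not_le.1 hcon
      have hd : (2 : ℝ) ^ (-(c * n)) ≤ density (E i) := by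
        unfold density
        rw [le_div_iff₀ h4n]
        have : 0 ≤ (2 : ℝ) ^ (-(c * n)) * 4 ^ n := by positivity
        linarith
      obtain ⟨-, h3, h4⟩ := decided_box hε hε1 ht hc hM hM2 hs hT (hE i) hn hd
      have h5 : (corners (E i) : ℝ) ≤ #(E i) + 3 * (2 ^ n * #(E i \ A)) := by
        exact_mod_cast corners_le A (E i) hA
      have h6 := card_le_four (E i)
      have h7 := hEA i
      have e8 : (8 : ℝ) ^ n = 4 ^ n * 2 ^ n := by rw [← mul_pow]; norm_num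
      have h8 : (2 : ℝ) ^ (-(ε * n / 2)) * (4 ^ n * 2 ^ n) ≤
          (4 * (2 : ℝ) ^ (-(ε * n))) * (4 ^ n * 2 ^ n) := by
        rw [← e8]
        refine (h3.trans h5).trans ?_
        have h9 : (4 : ℝ) ^ n ≤ (2 : ℝ) ^ (-(ε * n)) * 8 ^ n := by
          have h10 : (2 : ℝ) ^ (-(n : ℝ)) ≤ (2 : ℝ) ^ (-(ε * n)) :=
            Real.rpow_le_rpow_of_exponent_le (by norm_num) (by nlinarith)
          have h11 : (2 : ℝ) ^ (-(n : ℝ)) * 8 ^ n = 4 ^ n := by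
            rw [e8, Real.rpow_neg (by norm_num), Real.rpow_natCast]
            field_simp
          calc (4 : ℝ) ^ n = (2 : ℝ) ^ (-(n : ℝ)) * 8 ^ n := h11.symm
            _ ≤ _ := by gcongr
        have h12 : (2 : ℝ) ^ n * #(E i \ A) ≤ (2 : ℝ) ^ (-(ε * n)) * 8 ^ n := by
          calc (2 : ℝ) ^ n * #(E i \ A) ≤ 2 ^ n * ((2 : ℝ) ^ (-(ε * n)) * 4 ^ n) := by gcongr
            _ = (2 : ℝ) ^ (-(ε * n)) * 8 ^ n := by rw [e8]; ring
        linarith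
      have h13 : (2 : ℝ) ^ (-(ε * n / 2)) ≤ 4 * (2 : ℝ) ^ (-(ε * n)) :=
        le_of_mul_le_mul_right h8 (by positivity)
      have h14 : (4 : ℝ) * (2 : ℝ) ^ (-(ε * n)) = 2 ^ (2 - ε * n) := by
        rw [show (4 : ℝ) = 2 ^ (2 : ℝ) by norm_num, ← Real.rpow_add (by norm_num)]
        congr 1
      rw [h14, Real.rpow_le_rpow_left_iff (by norm_num)] at h13
      linarith
    · have hn' := not_le.1 hn
      have h3 := card_le_four (E i)
      have h4 : (1 : ℝ) ≤ 2 * (2 : ℝ) ^ (-(c * n)) := by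
        have h5 : (2 : ℝ) ^ (-1 : ℝ) ≤ (2 : ℝ) ^ (-(c * n)) :=
          Real.rpow_le_rpow_of_exponent_le (by norm_num) (by linarith)
        rw [Real.rpow_neg_one] at h5
        linarith
      nlinarith
  refine h2.trans ((Finset.sum_le_sum fun i _ => key i).trans (le_of_eq ?_))
  rw [Finset.sum_const, Finset.card_univ, Fintype.card_fin, nsmul_eq_mul]
  ring

end Pool.Agent.Helper45.RC
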