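import Pool.Agent.Helper45.RC.Three

/-!
# Inequations
-/

set_option autoImplicit false

namespace Pool.Agent.Helper45.RC

open Finset Pool.Agent.Helper45.AE

/-- the rational circle -/
abbrev 𝕋 := AddCircle (1 : ℚ)

theorem coe_int (m : ℤ) : ((m : ℚ) : 𝕋) = 0 := by
  rw [AddCircle.coe_eq_zero_iff]
  exact ⟨m, by simp⟩

theorem exists_int_of_coe_eq {r r' : ℚ} (h : (r : 𝕋) = r') : ∃ m : ℤ, r = r' + m := by
  have h1 : ((r - r' : ℚ) : 𝕋) = 0 := by
    rw [AddCircle.coe_sub, h, sub_self]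
  rw [AddCircle.coe_eq_zero_iff] at h1
  obtain ⟨m, hm⟩ := h1
  refine ⟨m, ?_⟩
  rw [zsmul_eq_mul, mul_one] at hm
  linarith

theorem exists_coe (u : 𝕋) : ∃ r : ℚ, (r : 𝕋) = u := by
  induction u using QuotientAddGroup.induction_on with
  | H z => exact ⟨z, rfl⟩

theorem exists_rep (a : ℚ) (u : 𝕋) : ∃ r : ℚ, (r : 𝕋) = u ∧ a ≤ r ∧ r < a + 1 := by
  obtain ⟨r, rfl⟩ := exists_coe u
  refine ⟨r - ⌊r - a⌋, ?_, ?_, ?_⟩
  · rw [AddCircle.coe_sub, coe_int, sub_zero]
  · have := Int.floor_le (r - a); linarith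
  · have := Int.lt_floor_add_one (r - a); linarith

/-- far from zero -/
def Far (u : 𝕋) : Prop := ∃ r : ℚ, (r : 𝕋) = u ∧ 1 / 6 ≤ r ∧ r ≤ 5 / 6

theorem far_or_near (u : 𝕋) : Far u ∨ ∃ r : ℚ, (r : 𝕋) = u ∧ -1 / 6 < r ∧ r < 1 / 6 := by
  obtain ⟨r, hr, h1, h2⟩ := exists_rep (-1 / 6) u
  by_cases h3 : r < 1 / 6
  · rcases eq_or_lt_of_le h1 with h4 | h4
    · refine Or.inl ⟨r + (1 : ℤ), ?_, ?_, ?_⟩
      · rw [AddCircle.coe_add, coe_int, add_zero, hr]
      · rw [← h4]; norm_num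
      · rw [← h4]; norm_num
    · exact Or.inr ⟨r, hr, h4, h3⟩
  · exact Or.inl ⟨r, hr, not_lt.1 h3, by linarith⟩

theorem exists_mid (v : 𝕋) (hv : v ≠ 0) : ∃ (h : ℤ) (r : ℚ), (r : 𝕋) = h • v ∧ 1 / 3 ≤ r ∧
    r ≤ 2 / 3 := by
  have key : ∀ (v : 𝕋) (r : ℚ), (r : 𝕋) = v → 0 < r → r < 1 / 3 →
      ∃ (h : ℤ) (r : ℚ), (r : 𝕋) = h • v ∧ 1 / 3 ≤ r ∧ r ≤ 2 / 3 := by
    intro v r hr h1 h2
    refine ⟨⌈1 / 3 / r⌉, ⌈1 / 3 / r⌉ • r, ?_, ?_, ?_⟩
    · rw [← hr]; rfl
    · rw [zsmul_eq_mul]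
      have := Int.le_ceil (1 / 3 / r)
      rwa [div_le_iff₀ h1] at this
    · rw [zsmul_eq_mul]
      have := (Int.ceil_lt_add_one (1 / 3 / r)).le
      have h3 : ((⌈1 / 3 / r⌉ : ℤ) : ℚ) * r ≤ (1 / 3 / r + 1) * r :=
        mul_le_mul_of_nonneg_right this h1.le
      have h4 : (1 / 3 / r + 1) * r = 1 / 3 + r := by field_simp
      linarith
  obtain ⟨r, hr, h1, h2⟩ := exists_rep 0 v
  have h0 : 0 < r := by
    rcases eq_or_lt_of_le h1 with h | h
    · exfalso; apply hv; rw [← hr, ← h]; exact AddCircle.coe_zero _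
    · exact h
  by_cases h3 : r < 1 / 3
  · exact key v r hr h0 h3
  · by_cases h4 : r ≤ 2 / 3
    · exact ⟨1, r, by rw [one_zsmul, hr], not_lt.1 h3, h4⟩
    · obtain ⟨h, s, hs, h5, h6⟩ := key (-v) (-r + (1 : ℤ)) (by
        rw [AddCircle.coe_add, coe_int, add_zero, AddCircle.coe_neg, hr]) (by push_cast; linarith)
        (by push_cast; linarith)
      exact ⟨-h, s, by rw [hs, neg_zsmul, zsmul_neg], h5, h6⟩

theorem exists_tors (u : 𝕋) : ∃ Q : ℕ, 0 < Q ∧ Q • u = 0 := by
  obtain ⟨r, rfl⟩ := exists_coe u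
  refine ⟨r.den, r.den_pos, ?_⟩
  have h1 : ((r.den • r : ℚ) : 𝕋) = r.den • (r : 𝕋) := rfl
  rw [← h1, nsmul_eq_mul, Rat.den_mul_eq_num]
  exact coe_int _

/-- at least one half of the points of a coset are far from zero -/
theorem half_far (Q : ℕ) [NeZero Q] (u v : 𝕋) (hv : v ≠ 0) (hQ : Q • v = 0)
    [DecidablePred Far] :
    Q ≤ 2 * #{j : ZMod Q | Far (u + j.val • v)} := by
  obtain ⟨h, r0, hr0, h1, h2⟩ := exists_mid v hv
  have hint : ∀ (a : ℤ) (j : ZMod Q), ((a : ZMod Q) = j) → a • v = j.val • v := by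
    intro a j ha
    have h3 : ((a - (j.val : ℤ) : ℤ) : ZMod Q) = 0 := by
      push_cast
      rw [ha, ZMod.natCast_zmod_val, sub_self]
    rw [ZMod.intCast_zmod_eq_zero_iff_dvd] at h3
    obtain ⟨c, hc⟩ := h3
    have h4 : a = j.val + c * Q := by rw [mul_comm c]; linarith
    rw [h4, add_zsmul, mul_smul, natCast_zsmul, natCast_zsmul, hQ, smul_zero, add_zero]
  have hshift : ∀ j : ZMod Q, ¬ Far (u + j.val • v) → Far (u + (j + (h : ZMod Q)).val • v) := by
    intro j hj
    rcases far_or_near (u + j.val • v) with h3 | ⟨r, hr, h3, h4⟩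
    · exact absurd h3 hj
    · have h5 : (j + (h : ZMod Q)).val • v = j.val • v + h • v := by
        rw [← hint ((j.val : ℤ) + h) (j + (h : ZMod Q)) (by push_cast; rw [ZMod.natCast_zmod_val]),
          add_zsmul, natCast_zsmul]
      refine ⟨r + r0, ?_, by linarith, by linarith⟩
      rw [AddCircle.coe_add, hr, hr0, h5, add_assoc]
  have hsplit := Finset.card_filter_add_card_filter_not (s := (univ : Finset (ZMod Q)))
    (fun j => Far (u + j.val • v))
  have hle : #{j : ZMod Q | ¬ Far (u + j.val • v)} ≤ #{j : ZMod Q | Far (u + j.val • v)} := by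
    refine Finset.card_le_card_of_injOn (fun j => j + (h : ZMod Q)) ?_ ?_
    · intro j hj
      rw [mem_coe, mem_filter] at hj ⊢
      exact ⟨mem_univ _, hshift j hj.2⟩
    · intro j _ j' _ hjj
      exact add_right_cancel hjj
  rw [Finset.card_univ, ZMod.card] at hsplit
  omega

theorem exists_far {K ι : Type*} [AddCommGroup K] [DecidableEq ι] [DecidablePred Far] (s : ι → K)
    (E : Finset ι) (hE : ∀ p ∈ E, s p ≠ 0) :
    ∃ χ : K →+ 𝕋, #E ≤ 2 * #{p ∈ E | Far (χ (s p))} := by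
  classical
  induction E using Finset.strongInduction with
  | H E ih =>
    rcases E.eq_empty_or_nonempty with h0 | ⟨p0, hp0⟩
    · exact ⟨0, by rw [h0]; simp⟩
    obtain ⟨c, hc⟩ := CharacterModule.exists_character_apply_ne_zero_of_ne_zero (hE p0 hp0)
    obtain ⟨c', hc'⟩ : ∃ c' : K →+ 𝕋, ∀ k, c' k = c k := ⟨c, fun _ => rfl⟩
    rw [← hc'] at hc
    clear hc'
    set E0 := E.filter fun p => c' (s p) = 0 with hE0
    set E1 := E.filter fun p => ¬ c' (s p) = 0 with hE1
    have hsub : E0 ⊂ E := by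
      rw [Finset.ssubset_iff_subset_ne]
      refine ⟨Finset.filter_subset _ _, fun h => ?_⟩
      rw [← h, hE0, mem_filter] at hp0
      exact hc hp0.2
    obtain ⟨χ0, hχ0⟩ := ih E0 hsub fun p hp => hE p (hsub.1 hp)
    choose Qf hQf1 hQf2 using fun p : ι => exists_tors (c' (s p))
    set Q := ∏ p ∈ E, Qf p with hQ
    have hQ0 : 0 < Q := Finset.prod_pos fun p _ => hQf1 p
    have : NeZero Q := ⟨hQ0.ne'⟩
    have hQs : ∀ p ∈ E, Q • c' (s p) = 0 := by
      intro p hp
      obtain ⟨m, hm⟩ := Finset.dvd_prod_of_mem Qf hp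
      rw [hQ, hm, mul_comm, mul_nsmul', hQf2, smul_zero]
    have hsum : #E1 * Q ≤ 2 * ∑ j : ZMod Q, #{p ∈ E1 | Far (χ0 (s p) + j.val • c' (s p))} := by
      have h1 : ∑ j : ZMod Q, #{p ∈ E1 | Far (χ0 (s p) + j.val • c' (s p))} =
          ∑ p ∈ E1, #{j : ZMod Q | Far (χ0 (s p) + j.val • c' (s p))} := by
        simp only [Finset.card_filter]
        rw [Finset.sum_comm]
      rw [h1, Finset.mul_sum, ← smul_eq_mul, ← Finset.sum_const]
      refine Finset.sum_le_sum fun p hp => ?_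
      rw [hE1, mem_filter] at hp
      exact half_far Q _ _ hp.2 (hQs p hp.1)
    obtain ⟨j, hj⟩ : ∃ j : ZMod Q, #E1 ≤ 2 * #{p ∈ E1 | Far (χ0 (s p) + j.val • c' (s p))} := by
      by_contra hcon
      push Not at hcon
      have h1 : 2 * ∑ j : ZMod Q, #{p ∈ E1 | Far (χ0 (s p) + j.val • c' (s p))} <
          ∑ j : ZMod Q, #E1 := by
        rw [Finset.mul_sum]
        exact Finset.sum_lt_sum_of_nonempty ⟨0, mem_univ _⟩ fun j _ => hcon j
      rw [Finset.sum_const, Finset.card_univ, ZMod.card, smul_eq_mul, mul_comm Q] at h1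
      omega
    refine ⟨χ0 + j.val • c', ?_⟩
    have hval : ∀ p, (χ0 + j.val • c') (s p) = χ0 (s p) + j.val • c' (s p) := fun p => rfl
    have h1 := Finset.card_filter_add_card_filter_not (s := E) (fun p => c' (s p) = 0)
    have h2 := Finset.card_filter_add_card_filter_not (s := E.filter fun p =>
      Far ((χ0 + j.val • c') (s p))) (fun p => c' (s p) = 0)
    have h3 : #{p ∈ E0 | Far (χ0 (s p))} = #((E.filter fun p =>
        Far ((χ0 + j.val • c') (s p))).filter fun p => c' (s p) = 0) := by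
      congr 1
      ext p
      simp only [hE0, mem_filter, hval]
      constructor
      · rintro ⟨⟨h4, h5⟩, h6⟩
        exact ⟨⟨h4, by rw [h5, smul_zero, add_zero]; exact h6⟩, h5⟩
      · rintro ⟨⟨h4, h5⟩, h6⟩
        rw [h6, smul_zero, add_zero] at h5
        exact ⟨⟨h4, h6⟩, h5⟩
    have h4 : #{p ∈ E1 | Far (χ0 (s p) + j.val • c' (s p))} = #((E.filter fun p =>
        Far ((χ0 + j.val • c') (s p))).filter fun p => ¬ c' (s p) = 0) := by
      congr 1
      ext p
      simp only [hE1, mem_filter, hval]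
      tauto
    rw [← hE0, ← hE1] at h1
    omega

variable {n : ℕ}

/-- **Inequations.** -/
theorem neg_step (E N : Finset (V n × V n)) (hN : AE.Additive N) (hd : Disjoint E N) :
    ∃ N' : Finset (V n × V n), AE.Additive N' ∧ Disjoint N' N ∧ #E ≤ 32 * #(E ∩ N') := by
  classical
  obtain ⟨K, _, F, G, H, hN⟩ := hN
  obtain ⟨χ, hχ⟩ := exists_far (fun p : V n × V n => F p.1 + G p.2 + H (p.1 + p.2)) E
    fun p hp h => (Finset.disjoint_left.1 hd) hp ((hN p.1 p.2).2 h)
  choose rep hrep h0rep hrep1 using exists_rep 0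
  set a : K → ℤ := fun k => ⌊18 * rep (χ k)⌋ with ha
  -- the sum of the three integers
  have hsum : ∀ k1 k2 k3 : K, ∃ l : ℤ, ((a k1 + a k2 + a k3 : ℤ) : ℚ) ≤
      18 * rep (χ (k1 + k2 + k3)) + 18 * l ∧ 18 * rep (χ (k1 + k2 + k3)) + 18 * l - 3 <
      ((a k1 + a k2 + a k3 : ℤ) : ℚ) := by
    intro k1 k2 k3
    obtain ⟨l, hl⟩ := exists_int_of_coe_eq (r := rep (χ k1) + rep (χ k2) + rep (χ k3))
      (r' := rep (χ (k1 + k2 + k3))) (by
        rw [AddCircle.coe_add, AddCircle.coe_add, hrep, hrep, hrep, hrep, map_add, map_add])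
    refine ⟨l, ?_, ?_⟩
    · have h1 := Int.floor_le (18 * rep (χ k1))
      have h2 := Int.floor_le (18 * rep (χ k2))
      have h3 := Int.floor_le (18 * rep (χ k3))
      simp only [ha]
      push_cast
      linarith
    · have h1 := Int.lt_floor_add_one (18 * rep (χ k1))
      have h2 := Int.lt_floor_add_one (18 * rep (χ k2))
      have h3 := Int.lt_floor_add_one (18 * rep (χ k3))
      simp only [ha]
      push_cast
      linarith
  set cl : V n × V n → ℤ := fun p => a (F p.1) + a (G p.2) + a (H (p.1 + p.2)) with hcl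
  -- classes
  have hfar : ∀ p ∈ E.filter fun p : V n × V n => Far (χ (F p.1 + G p.2 + H (p.1 + p.2))),
      (cl p) % 18 ∈ Finset.Icc (1 : ℤ) 15 := by
    intro p hp
    obtain ⟨r, hr, hr1, hr2⟩ := (mem_filter.1 hp).2
    obtain ⟨l, hl1, hl2⟩ := hsum (F p.1) (G p.2) (H (p.1 + p.2))
    have h1 := h0rep (χ (F p.1 + G p.2 + H (p.1 + p.2)))
    have h2 := hrep1 (χ (F p.1 + G p.2 + H (p.1 + p.2)))
    obtain ⟨m, hm⟩ := exists_int_of_coe_eq ((hrep (χ (F p.1 + G p.2 + H (p.1 + p.2)))).trans hr.symm)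
    have hm0 : m = 0 := by
      have h3 : (m : ℚ) < 1 := by linarith
      have h4 : (-1 : ℚ) < m := by linarith
      have h3' : m < 1 := by exact_mod_cast h3
      have h4' : -1 < m := by exact_mod_cast h4
      omega
    rw [hm0] at hm
    push_cast at hm
    rw [add_zero] at hm
    rw [hm] at hl1 hl2
    have h5 : ((cl p : ℤ) : ℚ) ≤ 15 + 18 * l := by
      simp only [hcl]; linarith
    have h6 : (18 * l : ℚ) < ((cl p : ℤ) : ℚ) := by
      simp only [hcl]; linarith
    have h5' : cl p ≤ 15 + 18 * l := by exact_mod_cast h5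
    have h6' : 18 * l < cl p := by exact_mod_cast h6
    rw [Finset.mem_Icc]
    omega
  have hnear : ∀ x y, (x, y) ∈ N → (cl (x, y)) % 18 ∉ Finset.Icc (1 : ℤ) 15 := by
    intro x y hxy
    rw [hN] at hxy
    obtain ⟨l, hl1, hl2⟩ := hsum (F x) (G y) (H (x + y))
    rw [hxy, map_zero] at hl1 hl2
    have h1 := h0rep 0
    have h2 := hrep1 0
    obtain ⟨m, hm⟩ := exists_int_of_coe_eq (r := rep 0) (r' := 0) (by rw [hrep, AddCircle.coe_zero])
    have hm0 : m = 0 := by
      have h3 : (m : ℚ) < 1 := by linarith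
      have h4 : (-1 : ℚ) < m := by linarith
      have h3' : m < 1 := by exact_mod_cast h3
      have h4' : -1 < m := by exact_mod_cast h4
      omega
    rw [hm0] at hm
    push_cast at hm
    rw [add_zero] at hm
    rw [hm] at hl1 hl2
    have h5' : cl (x, y) ≤ 18 * l := by
      have : ((cl (x, y) : ℤ) : ℚ) ≤ 18 * l := by simp only [hcl]; linarith
      exact_mod_cast this
    have h6' : 18 * l - 3 < cl (x, y) := by
      have : (18 * l - 3 : ℚ) < ((cl (x, y) : ℤ) : ℚ) := by simp only [hcl]; linarith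
      exact_mod_cast this
    rw [Finset.mem_Icc]
    omega
  -- the most popular class
  obtain ⟨t, ht, htc⟩ := Finset.exists_le_card_fiber_of_nsmul_le_card_of_maps_to
    (b := (#(E.filter fun p : V n × V n => Far (χ (F p.1 + G p.2 + H (p.1 + p.2)))) : ℚ) / 15)
    hfar ⟨1, by simp⟩ (by
      have h15 : #(Finset.Icc (1 : ℤ) 15) = 15 := by simp
      rw [nsmul_eq_mul, h15]
      refine le_of_eq ?_
      push_cast
      ring)
  refine ⟨univ.filter fun p => cl p % 18 = t, ⟨ZMod 18, inferInstance,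
    fun x => ((a (F x) : ℤ) : ZMod 18), fun y => ((a (G y) : ℤ) : ZMod 18),
    fun z => ((a (H z) - t : ℤ) : ZMod 18), fun x y => ?_⟩, ?_, ?_⟩
  · rw [mem_filter]
    simp only [mem_univ, true_and]
    rw [← Int.cast_add, ← Int.cast_add, ZMod.intCast_zmod_eq_zero_iff_dvd]
    have : a (F x) + a (G y) + (a (H (x + y)) - t) = cl (x, y) - t := by simp only [hcl]; ring
    rw [this]
    rw [Finset.mem_Icc] at ht
    constructor
    · intro h; exact_mod_cast (by omega : (18 : ℤ) ∣ cl (x, y) - t)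
    · intro h
      have h' : (18 : ℤ) ∣ cl (x, y) - t := by exact_mod_cast h
      omega
  · rw [Finset.disjoint_left]
    rintro ⟨x, y⟩ h1 h2
    have h3 := hnear x y h2
    rw [mem_filter] at h1
    rw [h1.2] at h3
    exact h3 ht
  · have h1 : #((E.filter fun p : V n × V n => Far (χ (F p.1 + G p.2 + H (p.1 + p.2)))).filter
        fun p => cl p % 18 = t) ≤ #(E ∩ univ.filter fun p => cl p % 18 = t) := by
      refine Finset.card_le_card fun p hp => ?_
      rw [mem_filter, mem_filter] at hp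
      rw [mem_inter, mem_filter]
      exact ⟨hp.1.1, mem_univ _, hp.2⟩
    have h2 : (#(E.filter fun p : V n × V n => Far (χ (F p.1 + G p.2 + H (p.1 + p.2)))) : ℚ) ≤
        15 * #((E.filter fun p : V n × V n => Far (χ (F p.1 + G p.2 + H (p.1 + p.2)))).filter
        fun p => cl p % 18 = t) := by linarith
    have h3 : #(E.filter fun p : V n × V n => Far (χ (F p.1 + G p.2 + H (p.1 + p.2)))) ≤
        15 * #((E.filter fun p : V n × V n => Far (χ (F p.1 + G p.2 + H (p.1 + p.2)))).filter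
        fun p => cl p % 18 = t) := by exact_mod_cast h2
    omega

end Pool.Agent.Helper45.RC
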