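import Pool.Agent.Helper45.RC.Expo
import Pool.Agent.Helper45.AE.Lift2

/-!
# Lifted sets without rectangles
-/

set_option autoImplicit false

namespace Pool.Agent.Helper45.RC

open Finset Pool.Agent.Helper45.AE

variable {n : ℕ}

/-- a rectangle in two of the coordinates `x`, `y`, `x + y` -/
def IsRectangle (D : Finset (V n × V n)) : Prop :=
  ∃ P Q : Finset (V n), (∀ x y, (x, y) ∈ D ↔ x ∈ P ∧ y ∈ Q) ∨
    (∀ x y, (x, y) ∈ D ↔ x ∈ P ∧ x + y ∈ Q) ∨ (∀ x y, (x, y) ∈ D ↔ y ∈ P ∧ x + y ∈ Q)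

theorem IsRectangle.six {D : Finset (V n × V n)} (h : IsRectangle D) :
    ∃ P : Fin 6 → Finset (V n), ∀ x y, (x, y) ∈ D ↔
      (x ∈ P 0 ∧ y ∈ P 1) ∨ (x ∈ P 2 ∧ x + y ∈ P 3) ∨ (y ∈ P 4 ∧ x + y ∈ P 5) := by
  obtain ⟨P, Q, h | h | h⟩ := h
  · exact ⟨![P, Q, ∅, ∅, ∅, ∅], fun x y => by rw [h]; simp⟩
  · exact ⟨![∅, ∅, P, Q, ∅, ∅], fun x y => by rw [h]; simp⟩
  · exact ⟨![∅, ∅, ∅, ∅, P, Q], fun x y => by rw [h]; simp⟩

theorem lifted_inter_box {M : ℝ} {L : Finset (V n × V n)} (hL : IsLifted M L)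
    (X Y Z : Finset (V n)) :
    IsLifted M (L.filter fun p => p.1 ∈ X ∧ p.2 ∈ Y ∧ p.1 + p.2 ∈ Z) := by
  classical
  obtain ⟨B, _, π, P, Q, R, hP, hQ, hR, h⟩ := hL
  have hc : ∀ (P : Finset B) (X : Finset (V n)), (#P : ℝ) ≤ M * 2 ^ n →
      (#(P.filter fun p => π p ∈ X) : ℝ) ≤ M * 2 ^ n := by
    intro P X hP
    refine le_trans ?_ hP
    exact_mod_cast Finset.card_le_card (Finset.filter_subset _ _)
  refine ⟨B, inferInstance, π, P.filter fun p => π p ∈ X, Q.filter fun p => π p ∈ Y,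
    R.filter fun p => π p ∈ Z, hc P X hP, hc Q Y hQ, hc R Z hR, fun x y => ?_⟩
  simp only [mem_filter]
  rw [h]
  constructor
  · rintro ⟨⟨p, hp, q, hq, hr, rfl, rfl⟩, h1, h2, h3⟩
    exact ⟨p, ⟨hp, h1⟩, q, ⟨hq, h2⟩, ⟨hr, by rw [map_add]; exact h3⟩, rfl, rfl⟩
  · rintro ⟨p, ⟨hp, h1⟩, q, ⟨hq, h2⟩, ⟨hr, h3⟩, rfl, rfl⟩
    exact ⟨⟨p, hp, q, hq, hr, rfl, rfl⟩, h1, h2, by rw [← map_add]; exact h3⟩

theorem lifted_inter_additive {M : ℝ} {L N : Finset (V n × V n)} (hL : IsLifted M L)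
    (hN : AE.Additive N) : IsLifted M (L ∩ N) := by
  classical
  obtain ⟨B, _, π, P, Q, R, hP, hQ, hR, h⟩ := hL
  obtain ⟨K, _, F, G, H, hN⟩ := hN
  have hc : ∀ (P : Finset B) (f : B → B × K), (#P : ℝ) ≤ M * 2 ^ n →
      (#(P.image f) : ℝ) ≤ M * 2 ^ n := by
    intro P f hP
    refine le_trans ?_ hP
    exact_mod_cast Finset.card_image_le
  refine ⟨B × K, inferInstance, π.comp (AddMonoidHom.fst B K), P.image fun p => (p, F (π p)),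
    Q.image fun p => (p, G (π p)), R.image fun p => (p, - H (π p)), hc _ _ hP, hc _ _ hQ,
    hc _ _ hR, fun x y => ?_⟩
  rw [mem_inter, h, hN]
  simp only [mem_image, AddMonoidHom.coe_comp, AddMonoidHom.coe_fst, Function.comp_apply]
  constructor
  · rintro ⟨⟨p, hp, q, hq, hr, rfl, rfl⟩, h1⟩
    refine ⟨(p, F (π p)), ⟨p, hp, rfl⟩, (q, G (π q)), ⟨q, hq, rfl⟩, ⟨p + q, hr, ?_⟩, rfl, rfl⟩
    rw [Prod.mk_add_mk, map_add]
    congr 1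
    exact (eq_neg_of_add_eq_zero_left h1).symm
  · rintro ⟨_, ⟨p, hp, rfl⟩, _, ⟨q, hq, rfl⟩, ⟨r, hr, h1⟩, rfl, rfl⟩
    rw [Prod.mk_add_mk, Prod.mk.injEq] at h1
    obtain ⟨h1, h2⟩ := h1
    subst h1
    refine ⟨⟨p, hp, q, hq, hr, rfl, rfl⟩, ?_⟩
    rw [← h2, map_add]
    simp

/-- one pair of coordinates -/
theorem clean_pair (T w q : ℕ) (φ : V n × V n → V n × V n) (hφ : Function.Injective φ)
    (E : Finset (V n × V n)) (P Q : Fin T → Finset (V n))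
    (hE : ∀ p ∈ E, ∀ i, ¬ ((φ p).1 ∈ P i ∧ (φ p).2 ∈ Q i))
    (hw : 1 ≤ w) (hq : 1 ≤ q) (hT : T ≤ w * n) (hn : 1484 * (w * q) ^ 4 * q ≤ n)
    (hd : (2 : ℝ) ^ (-((n : ℝ) / ((132 * w ^ 2 * q ^ 3 : ℕ) : ℝ))) * 4 ^ n ≤ #E) :
    ∃ X Y : Finset (V n), (∀ u ∈ X, ∀ v ∈ Y, ∀ i, ¬ (u ∈ P i ∧ v ∈ Q i)) ∧
      (2 : ℝ) ^ (-((n : ℝ) / q)) * 4 ^ n ≤ #{p ∈ E | (φ p).1 ∈ X ∧ (φ p).2 ∈ Y} := by
  classical
  have hS : ∀ p ∈ E.image φ, Disjoint ((univ : Finset (Fin T)).filter fun i => p.1 ∈ P i)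
      ((univ : Finset (Fin T)).filter fun i => p.2 ∈ Q i) := by
    intro p hp
    rw [mem_image] at hp
    obtain ⟨p, hp, rfl⟩ := hp
    rw [Finset.disjoint_left]
    intro i hi hi'
    exact hE p hp i ⟨(mem_filter.1 hi).2, (mem_filter.1 hi').2⟩
  have hcard : #(E.image φ) = #E := Finset.card_image_of_injective _ hφ
  obtain ⟨X, Y, h1, h2⟩ := clean_box n T w q (card_V n) (card_V n) (E.image φ)
    (fun u => (univ : Finset (Fin T)).filter fun i => u ∈ P i)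
    (fun v => (univ : Finset (Fin T)).filter fun i => v ∈ Q i) hS hw hq hT hn
    (by rw [hcard]; push_cast at hd; exact hd)
  refine ⟨X, Y, ?_, ?_⟩
  · rintro u hu v hv i ⟨hi, hi'⟩
    exact (Finset.disjoint_left.1 (h1 u hu v hv)) (mem_filter.2 ⟨mem_univ i, hi⟩)
      (mem_filter.2 ⟨mem_univ i, hi'⟩)
  · refine h2.trans (le_of_eq ?_)
    have : ({p ∈ E.image φ | p.1 ∈ X ∧ p.2 ∈ Y} : Finset (V n × V n)) =
        ({p ∈ E | (φ p).1 ∈ X ∧ (φ p).2 ∈ Y} : Finset (V n × V n)).image φ := by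
      ext p
      simp only [mem_filter, mem_image]
      constructor
      · rintro ⟨⟨p, hp, rfl⟩, h⟩
        exact ⟨p, ⟨hp, h⟩, rfl⟩
      · rintro ⟨p, ⟨hp, h⟩, rfl⟩
        exact ⟨⟨p, hp, rfl⟩, h⟩
    rw [this, Finset.card_image_of_injective _ hφ]

/-- a polynomial -/
def gf (w q : ℕ) : ℕ := 132 * w ^ 2 * q ^ 3

theorem gf_pos {w q : ℕ} (hw : 1 ≤ w) (hq : 1 ≤ q) : 1 ≤ gf w q := by
  unfold gf
  have := Nat.one_le_pow 2 _ hw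
  have := Nat.one_le_pow 3 _ hq
  exact Nat.mul_pos (by omega) (by omega)

theorem le_gf {w q : ℕ} (hw : 1 ≤ w) : q ≤ gf w q := by
  unfold gf
  have h1 : q ≤ q ^ 3 := Nat.le_self_pow (by norm_num) q
  have h2 : 1 ≤ 132 * w ^ 2 := by
    have := Nat.one_le_pow 2 _ hw
    omega
  calc q ≤ 1 * q ^ 3 := by omega
    _ ≤ 132 * w ^ 2 * q ^ 3 := Nat.mul_le_mul_right _ h2

/-- **Lifted sets without rectangles.** -/
theorem lifted_clean (T w q : ℕ) (M : ℝ) (L E : Finset (V n × V n)) (D : Fin T → Finset (V n × V n))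
    (hL : IsLifted M L) (hD : ∀ i, IsRectangle (D i)) (hE : ∀ p, p ∈ E ↔ p ∈ L ∧ ∀ i, p ∉ D i)
    (hw : 1 ≤ w) (hq : 1 ≤ q) (hT : T ≤ w * n)
    (hn : 1484 * (w * gf w (gf w q)) ^ 4 * gf w (gf w q) ≤ n)
    (hd : (2 : ℝ) ^ (-((n : ℝ) / (gf w (gf w (gf w q)) : ℕ))) * 4 ^ n ≤ #E) :
    ∃ L' : Finset (V n × V n), IsLifted M L' ∧ L' ⊆ E ∧
      (2 : ℝ) ^ (-((n : ℝ) / q)) * 4 ^ n ≤ #L' := by
  classical
  choose P hP using fun i => (hD i).six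
  have hq1 : 1 ≤ gf w q := gf_pos hw hq
  have hq2 : 1 ≤ gf w (gf w q) := gf_pos hw hq1
  have hle1 : q ≤ gf w q := le_gf hw
  have hle2 : gf w q ≤ gf w (gf w q) := le_gf hw
  have hn2 : 1484 * (w * gf w q) ^ 4 * gf w q ≤ n :=
    le_trans (by gcongr) hn
  have hn3 : 1484 * (w * q) ^ 4 * q ≤ n :=
    le_trans (by gcongr) hn2
  have hout : ∀ p ∈ E, ∀ i, ¬ ((p.1 ∈ P i 0 ∧ p.2 ∈ P i 1) ∨ (p.1 ∈ P i 2 ∧ p.1 + p.2 ∈ P i 3) ∨
      (p.2 ∈ P i 4 ∧ p.1 + p.2 ∈ P i 5)) := fun p hp i h =>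
    ((hE p).1 hp).2 i ((hP i p.1 p.2).2 h)
  obtain ⟨X1, Y1, h1, h1'⟩ := clean_pair T w (gf w (gf w q)) id Function.injective_id E
    (fun i => P i 0) (fun i => P i 1) (fun p hp i h => hout p hp i (Or.inl h)) hw hq2 hT hn hd
  set E1 : Finset (V n × V n) := {p ∈ E | (id p).1 ∈ X1 ∧ (id p).2 ∈ Y1} with hE1
  have hE1' : ∀ p ∈ E1, p ∈ E := fun p hp => (mem_filter.1 hp).1
  obtain ⟨X2, Y2, h2, h2'⟩ := clean_pair T w (gf w q) (fun p => (p.1, p.1 + p.2))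
    (fun p p' h => by
      simp only [Prod.mk.injEq] at h
      exact Prod.ext h.1 (by have := h.2; rw [h.1] at this; exact add_left_cancel this)) E1
    (fun i => P i 2) (fun i => P i 3) (fun p hp i h => hout p (hE1' p hp) i (Or.inr (Or.inl h)))
    hw hq1 hT hn2 h1'
  set E2 : Finset (V n × V n) := {p ∈ E1 | p.1 ∈ X2 ∧ p.1 + p.2 ∈ Y2} with hE2
  have hE2' : ∀ p ∈ E2, p ∈ E := fun p hp => hE1' p (mem_filter.1 hp).1
  obtain ⟨X3, Y3, h3, h3'⟩ := clean_pair T w q (fun p => (p.2, p.1 + p.2))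
    (fun p p' h => by
      simp only [Prod.mk.injEq] at h
      exact Prod.ext (by have := h.2; rw [h.1] at this; exact add_right_cancel this) h.1) E2
    (fun i => P i 4) (fun i => P i 5) (fun p hp i h => hout p (hE2' p hp) i (Or.inr (Or.inr h)))
    hw hq hT hn3 h2'
  refine ⟨((L.filter fun p => p.1 ∈ X1 ∧ p.2 ∈ Y1 ∧ p.1 + p.2 ∈ (univ : Finset (V n))).filter
    fun p => p.1 ∈ X2 ∧ p.2 ∈ (univ : Finset (V n)) ∧ p.1 + p.2 ∈ Y2).filter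
    fun p => p.1 ∈ (univ : Finset (V n)) ∧ p.2 ∈ X3 ∧ p.1 + p.2 ∈ Y3,
    lifted_inter_box (lifted_inter_box (lifted_inter_box hL _ _ _) _ _ _) _ _ _, ?_, ?_⟩
  · intro p hp
    simp only [mem_filter, mem_univ, true_and, and_true] at hp
    obtain ⟨⟨⟨hpL, hp1, hp2⟩, hp3, hp4⟩, hp5, hp6⟩ := hp
    rw [hE]
    refine ⟨hpL, fun i hi => ?_⟩
    rcases (hP i p.1 p.2).1 hi with h | h | h
    · exact h1 _ hp1 _ hp2 i h
    · exact h2 _ hp3 _ hp4 i h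
    · exact h3 _ hp5 _ hp6 i h
  · refine h3'.trans ?_
    have : ({p ∈ E2 | p.2 ∈ X3 ∧ p.1 + p.2 ∈ Y3} : Finset (V n × V n)) ⊆
        (((L.filter fun p => p.1 ∈ X1 ∧ p.2 ∈ Y1 ∧ p.1 + p.2 ∈ (univ : Finset (V n))).filter
          fun p => p.1 ∈ X2 ∧ p.2 ∈ (univ : Finset (V n)) ∧ p.1 + p.2 ∈ Y2).filter
          fun p => p.1 ∈ (univ : Finset (V n)) ∧ p.2 ∈ X3 ∧ p.1 + p.2 ∈ Y3) := by
      intro p hp
      simp only [hE2, hE1, mem_filter, id] at hp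
      simp only [mem_filter, mem_univ, true_and, and_true]
      exact ⟨⟨⟨((hE p).1 hp.1.1.1).1, hp.1.1.2⟩, hp.1.2⟩, hp.2⟩
    exact_mod_cast Finset.card_le_card this

end Pool.Agent.Helper45.RC
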