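import Pool.Agent.Helper45.RC.Neg

/-!
# Decision trees
-/

set_option autoImplicit false

namespace Pool.Agent.Helper45.RC

open Finset Pool.Agent.Helper45.AE

variable {n : ℕ}

theorem additive_empty : AE.Additive (∅ : Finset (V n × V n)) :=
  ⟨ℤ, inferInstance, fun _ => 0, fun _ => 0, fun _ => 1, fun x y => by simp⟩

theorem rectangle_empty : IsRectangle (∅ : Finset (V n × V n)) :=
  ⟨∅, ∅, Or.inl fun x y => by simp⟩

theorem additive_of_rectangle {D : Finset (V n × V n)} (hD : IsRectangle D) : AE.Additive D := by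
  classical
  obtain ⟨P, Q, h | h | h⟩ := hD
  · refine ⟨ℤ × ℤ, inferInstance, fun x => (if x ∈ P then 0 else 1, 0),
      fun y => (0, if y ∈ Q then 0 else 1), fun _ => 0, fun x y => ?_⟩
    rw [h]
    by_cases h1 : x ∈ P <;> by_cases h2 : y ∈ Q <;> simp [h1, h2]
  · refine ⟨ℤ × ℤ, inferInstance, fun x => (if x ∈ P then 0 else 1, 0),
      fun _ => 0, fun z => (0, if z ∈ Q then 0 else 1), fun x y => ?_⟩
    rw [h]
    by_cases h1 : x ∈ P <;> by_cases h2 : x + y ∈ Q <;> simp [h1, h2]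
  · refine ⟨ℤ × ℤ, inferInstance, fun _ => 0, fun x => (if x ∈ P then 0 else 1, 0),
      fun z => (0, if z ∈ Q then 0 else 1), fun x y => ?_⟩
    rw [h]
    by_cases h1 : y ∈ P <;> by_cases h2 : x + y ∈ Q <;> simp [h1, h2]

/-- a lifted set without `s` additive sets and `T` rectangles -/
def Piece (M : ℝ) (s T : ℕ) (E : Finset (V n × V n)) : Prop :=
  ∃ (L : Finset (V n × V n)) (N : Fin s → Finset (V n × V n)) (D : Fin T → Finset (V n × V n)),
    IsLifted M L ∧ (∀ i, AE.Additive (N i)) ∧ (∀ i, IsRectangle (D i)) ∧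
      ∀ p, p ∈ E ↔ p ∈ L ∧ (∀ i, p ∉ N i) ∧ ∀ i, p ∉ D i

theorem Piece.neg {M : ℝ} {s T : ℕ} {E : Finset (V n × V n)} (h : Piece M (s + 1) T E) :
    ∃ E' : Finset (V n × V n), Piece M s T E' ∧ E' ⊆ E ∧ #E ≤ 32 * #E' := by
  classical
  obtain ⟨L, N, D, hL, hN, hD, hE⟩ := h
  obtain ⟨N', h1, h2, h3⟩ := neg_step E (N 0) (hN 0) (by
    rw [Finset.disjoint_left]
    intro p hp
    exact ((hE p).1 hp).2.1 0)
  refine ⟨E ∩ N', ⟨L ∩ N', fun i => N i.succ, D, lifted_inter_additive hL h1,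
    fun i => hN _, hD, fun p => ?_⟩, inter_subset_left, h3⟩
  rw [mem_inter, mem_inter, hE]
  constructor
  · rintro ⟨⟨h4, h5, h6⟩, h7⟩
    exact ⟨⟨h4, h7⟩, fun i => h5 _, h6⟩
  · rintro ⟨⟨h4, h7⟩, h5, h6⟩
    refine ⟨⟨h4, fun i => ?_, h6⟩, h7⟩
    refine Fin.cases ?_ (fun i => h5 i) i
    exact (Finset.disjoint_left.1 h2) h7

theorem Piece.neg_all {M : ℝ} {T : ℕ} : ∀ (s : ℕ) (E : Finset (V n × V n)), Piece M s T E →
    ∃ E' : Finset (V n × V n), Piece M 0 T E' ∧ E' ⊆ E ∧ #E ≤ 32 ^ s * #E' := by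
  intro s
  induction s with
  | zero => intro E h; exact ⟨E, h, subset_rfl, by simp⟩
  | succ s ih =>
    intro E h
    obtain ⟨E1, h1, h2, h3⟩ := h.neg
    obtain ⟨E2, h4, h5, h6⟩ := ih E1 h1
    refine ⟨E2, h4, h5.trans h2, ?_⟩
    calc #E ≤ 32 * #E1 := h3
      _ ≤ 32 * (32 ^ s * #E2) := by gcongr
      _ = 32 ^ (s + 1) * #E2 := by rw [pow_succ]; ring

theorem Piece.lifted {M : ℝ} {s T : ℕ} {E : Finset (V n × V n)} (h : IsLifted M E) :
    Piece M s T E :=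
  ⟨E, fun _ => ∅, fun _ => ∅, h, fun _ => additive_empty, fun _ => rectangle_empty,
    fun p => by simp⟩

theorem Piece.inter {M : ℝ} {s T : ℕ} {E N : Finset (V n × V n)} (h : Piece M s T E)
    (hN : AE.Additive N) : Piece M (s + 1) T (N ∩ E) := by
  classical
  obtain ⟨L, N', D, hL, hN', hD, hE⟩ := h
  refine ⟨L ∩ N, Fin.cons ∅ N', D, lifted_inter_additive hL hN, fun i => ?_, hD, fun p => ?_⟩
  · refine Fin.cases ?_ (fun i => ?_) i
    · rw [Fin.cons_zero]; exact additive_empty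
    · rw [Fin.cons_succ]; exact hN' i
  · rw [mem_inter, mem_inter, hE]
    constructor
    · rintro ⟨h1, h2, h3, h4⟩
      refine ⟨⟨h2, h1⟩, fun i => ?_, h4⟩
      refine Fin.cases ?_ (fun i => ?_) i
      · rw [Fin.cons_zero]; simp
      · rw [Fin.cons_succ]; exact h3 i
    · rintro ⟨⟨h2, h1⟩, h3, h4⟩
      refine ⟨h1, h2, fun i => ?_, h4⟩
      have := h3 i.succ
      rwa [Fin.cons_succ] at this

theorem Piece.sdiff {M : ℝ} {s T : ℕ} {E N : Finset (V n × V n)} (h : Piece M s T E)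
    (hN : AE.Additive N) : Piece M (s + 1) T (E \ N) := by
  classical
  obtain ⟨L, N', D, hL, hN', hD, hE⟩ := h
  refine ⟨L, Fin.cons N N', D, hL, fun i => ?_, hD, fun p => ?_⟩
  · refine Fin.cases ?_ (fun i => ?_) i
    · rw [Fin.cons_zero]; exact hN
    · rw [Fin.cons_succ]; exact hN' i
  · rw [mem_sdiff, hE]
    constructor
    · rintro ⟨⟨h2, h3, h4⟩, h1⟩
      refine ⟨h2, fun i => ?_, h4⟩
      refine Fin.cases ?_ (fun i => ?_) i
      · rw [Fin.cons_zero]; exact h1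
      · rw [Fin.cons_succ]; exact h3 i
    · rintro ⟨h2, h3, h4⟩
      refine ⟨⟨h2, fun i => ?_, h4⟩, ?_⟩
      · have := h3 i.succ
        rwa [Fin.cons_succ] at this
      · have := h3 0
        rwa [Fin.cons_zero] at this

theorem Piece.rect {M : ℝ} {s T : ℕ} {E N : Finset (V n × V n)} (h : Piece M s T E)
    (hN : IsRectangle N) : Piece M s (T + 1) (E \ N) := by
  classical
  obtain ⟨L, N', D, hL, hN', hD, hE⟩ := h
  refine ⟨L, N', Fin.cons N D, hL, hN', fun i => ?_, fun p => ?_⟩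
  · refine Fin.cases ?_ (fun i => ?_) i
    · rw [Fin.cons_zero]; exact hN
    · rw [Fin.cons_succ]; exact hD i
  · rw [mem_sdiff, hE]
    constructor
    · rintro ⟨⟨h2, h3, h4⟩, h1⟩
      refine ⟨h2, h3, fun i => ?_⟩
      refine Fin.cases ?_ (fun i => ?_) i
      · rw [Fin.cons_zero]; exact h1
      · rw [Fin.cons_succ]; exact h4 i
    · rintro ⟨h2, h3, h4⟩
      refine ⟨⟨h2, h3, fun i => ?_⟩, ?_⟩
      · have := h4 i.succ
        rwa [Fin.cons_succ] at this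
      · have := h4 0
        rwa [Fin.cons_zero] at this

/-- decision trees -/
inductive Decided (M : ℝ) : ℕ → ℕ → Finset (V n × V n) → Prop
  | leaf {s T : ℕ} {E : Finset (V n × V n)} : IsLifted M E → Decided M s T E
  | additive {s T : ℕ} {E A B : Finset (V n × V n)} : AE.Additive E → Decided M s T A →
      Decided M s T B → Decided M (s + 1) T ((E ∩ A) ∪ (B \ E))
  | rectangle {s T : ℕ} {D A B : Finset (V n × V n)} : IsRectangle D → Decided M s (T + 1) A →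
      Decided M (s + 1) T B → Decided M (s + 1) (T + 1) ((D ∩ A) ∪ (B \ D))

theorem Decided.pieces {M : ℝ} {s T : ℕ} {E : Finset (V n × V n)} (h : Decided M s T E) :
    ∃ PP : Finset (Finset (V n × V n)), #PP ≤ 2 ^ s * (T + s).choose s ∧
      (∀ P ∈ PP, Piece M s T P) ∧ ∀ p, p ∈ E ↔ ∃ P ∈ PP, p ∈ P := by
  classical
  induction h with
  | @leaf s T E hE =>
    refine ⟨{E}, ?_, fun P hP => ?_, fun p => by simp⟩
    · rw [Finset.card_singleton]
      exact Nat.mul_pos (by positivity) (Nat.choose_pos (by omega))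
    · rw [mem_singleton] at hP
      rw [hP]; exact Piece.lifted hE
  | @additive s T E A B hE _ _ ihA ihB =>
    obtain ⟨AA, hA1, hA2, hA3⟩ := ihA
    obtain ⟨BB, hB1, hB2, hB3⟩ := ihB
    refine ⟨AA.image (fun P => E ∩ P) ∪ BB.image fun P => P \ E, ?_, fun P hP => ?_, fun p => ?_⟩
    · have h1 := Finset.card_union_le (AA.image (fun P => E ∩ P)) (BB.image fun P => P \ E)
      have h2 : #(AA.image (fun P => E ∩ P)) ≤ #AA := Finset.card_image_le
      have h3 : #(BB.image fun P => P \ E) ≤ #BB := Finset.card_image_le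
      have h4 : (T + s).choose s ≤ (T + (s + 1)).choose (s + 1) := by
        rw [← add_assoc, Nat.choose_succ_succ]; exact Nat.le_add_right _ _
      have h5 : 2 ^ (s + 1) * (T + (s + 1)).choose (s + 1) =
          2 ^ s * (T + (s + 1)).choose (s + 1) + 2 ^ s * (T + (s + 1)).choose (s + 1) := by
        rw [pow_succ]; ring
      have h6 : 2 ^ s * (T + s).choose s ≤ 2 ^ s * (T + (s + 1)).choose (s + 1) :=
        Nat.mul_le_mul_left _ h4
      omega
    · rw [mem_union, mem_image, mem_image] at hP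
      rcases hP with ⟨P, hP, rfl⟩ | ⟨P, hP, rfl⟩
      · exact (hA2 P hP).inter hE
      · exact (hB2 P hP).sdiff hE
    · simp only [mem_union, mem_inter, mem_sdiff, mem_image, hA3, hB3]
      constructor
      · rintro (⟨h1, P, hP, h2⟩ | ⟨⟨P, hP, h2⟩, h1⟩)
        · exact ⟨E ∩ P, Or.inl ⟨P, hP, rfl⟩, mem_inter.2 ⟨h1, h2⟩⟩
        · exact ⟨P \ E, Or.inr ⟨P, hP, rfl⟩, mem_sdiff.2 ⟨h2, h1⟩⟩
      · rintro ⟨_, ⟨P, hP, rfl⟩ | ⟨P, hP, rfl⟩, h1⟩
        · rw [mem_inter] at h1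
          exact Or.inl ⟨h1.1, P, hP, h1.2⟩
        · rw [mem_sdiff] at h1
          exact Or.inr ⟨⟨P, hP, h1.1⟩, h1.2⟩
  | @rectangle s T D A B hD _ _ ihA ihB =>
    obtain ⟨AA, hA1, hA2, hA3⟩ := ihA
    obtain ⟨BB, hB1, hB2, hB3⟩ := ihB
    refine ⟨AA.image (fun P => D ∩ P) ∪ BB.image fun P => P \ D, ?_, fun P hP => ?_, fun p => ?_⟩
    · have h1 := Finset.card_union_le (AA.image (fun P => D ∩ P)) (BB.image fun P => P \ D)
      have h2 : #(AA.image (fun P => D ∩ P)) ≤ #AA := Finset.card_image_le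
      have h3 : #(BB.image fun P => P \ D) ≤ #BB := Finset.card_image_le
      have h4 : (T + 1 + (s + 1)).choose (s + 1) =
          (T + 1 + s).choose s + (T + (s + 1)).choose (s + 1) := by
        rw [← add_assoc (T + 1) s 1, Nat.choose_succ_succ]
        congr 2
        omega
      have h5 : 2 ^ s * (T + 1 + s).choose s ≤ 2 ^ (s + 1) * (T + 1 + s).choose s :=
        Nat.mul_le_mul_right _ (Nat.pow_le_pow_right (by norm_num) (by omega))
      rw [h4, Nat.mul_add]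
      omega
    · rw [mem_union, mem_image, mem_image] at hP
      rcases hP with ⟨P, hP, rfl⟩ | ⟨P, hP, rfl⟩
      · exact (hA2 P hP).inter (additive_of_rectangle hD)
      · exact (hB2 P hP).rect hD
    · simp only [mem_union, mem_inter, mem_sdiff, mem_image, hA3, hB3]
      constructor
      · rintro (⟨h1, P, hP, h2⟩ | ⟨⟨P, hP, h2⟩, h1⟩)
        · exact ⟨D ∩ P, Or.inl ⟨P, hP, rfl⟩, mem_inter.2 ⟨h1, h2⟩⟩
        · exact ⟨P \ D, Or.inr ⟨P, hP, rfl⟩, mem_sdiff.2 ⟨h2, h1⟩⟩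
      · rintro ⟨_, ⟨P, hP, rfl⟩ | ⟨P, hP, rfl⟩, h1⟩
        · rw [mem_inter] at h1
          exact Or.inl ⟨h1.1, P, hP, h1.2⟩
        · rw [mem_sdiff] at h1
          exact Or.inr ⟨⟨P, hP, h1.1⟩, h1.2⟩

theorem choose_le (T s m : ℕ) :
    ((T + s).choose s : ℝ) ≤ (2 : ℝ) ^ (2 * (1 / 2 : ℝ) ^ m * (T + s) + m * s) := by
  obtain ⟨x, hx⟩ : ∃ x : ℝ, x = (1 / 2) ^ m := ⟨_, rfl⟩
  have hx0 : 0 < x := by rw [hx]; positivity
  have hx1 : x ≤ 1 := by rw [hx]; exact pow_le_one₀ (by norm_num) (by norm_num)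
  have h1 := card_small (ι := Fin (T + s)) s x hx0 hx1
  rw [Fintype.card_fin] at h1
  have h2 : (1 + x) ^ (T + s) ≤ (2 : ℝ) ^ (2 * x * (T + s)) := by
    calc (1 + x) ^ (T + s) ≤ ((2 : ℝ) ^ (2 * x)) ^ (T + s) :=
          pow_le_pow_left₀ (by positivity) (one_add_le_two_rpow x hx0.le) _
      _ = _ := by rw [← Real.rpow_mul_natCast (by norm_num)]; push_cast; rfl
  have h3 : (x ^ s : ℝ) = (2 : ℝ) ^ (-((m : ℝ) * s)) := by
    rw [Real.rpow_neg (by norm_num), ← Nat.cast_mul, Real.rpow_natCast, hx, one_div, inv_pow,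
      inv_pow, ← pow_mul]
  rw [h3] at h1
  have h0 : ((T + s).choose s : ℝ) ≤ #{t : Finset (Fin (T + s)) | #t ≤ s} := by
    have : (T + s).choose s = #(powersetCard s (univ : Finset (Fin (T + s)))) := by
      rw [Finset.card_powersetCard, Finset.card_univ, Fintype.card_fin]
    rw [this]
    exact_mod_cast Finset.card_le_card fun t ht => by
      rw [mem_powersetCard] at ht
      rw [mem_filter]
      exact ⟨mem_univ _, ht.2.le⟩
  refine h0.trans ?_
  have h5 : (0 : ℝ) < 2 ^ (-((m : ℝ) * s)) := by positivity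
  refine le_of_mul_le_mul_right ?_ h5
  rw [← Real.rpow_add (by norm_num)]
  have h6 : 2 * (1 / 2 : ℝ) ^ m * (T + s) + m * s + -((m : ℝ) * s) = 2 * x * (T + s) := by
    rw [hx]; ring
  rw [h6]
  exact h1.trans h2

/-- the constant -/
noncomputable def cc (w q : ℕ) : ℝ := 1 / (30 * w * (gf w (gf w (gf w q)) : ℕ) ^ 2)

/-- **Lifted sets in decided sets.** -/
theorem decided_lifted {M : ℝ} {s T w q : ℕ} {E : Finset (V n × V n)} (h : Decided M s T E)
    (hw : 1 ≤ w) (hq : 1 ≤ q) (hT : T ≤ w * n) (hs : (s : ℝ) ≤ cc w q * n)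
    (hn : 1 ≤ cc w q * n) (hE : (2 : ℝ) ^ (-(cc w q * n)) * 4 ^ n ≤ #E) :
    ∃ L' : Finset (V n × V n), IsLifted M L' ∧ L' ⊆ E ∧
      (2 : ℝ) ^ (-((n : ℝ) / q)) * 4 ^ n ≤ #L' := by
  classical
  have hq1 : 1 ≤ gf w q := gf_pos hw hq
  have hq2 : 1 ≤ gf w (gf w q) := gf_pos hw hq1
  have hq3 : 1 ≤ gf w (gf w (gf w q)) := gf_pos hw hq2
  obtain ⟨q2, hq2e⟩ : ∃ q2, q2 = gf w (gf w q) := ⟨_, rfl⟩
  obtain ⟨q3, hq3e⟩ : ∃ q3, q3 = gf w (gf w (gf w q)) := ⟨_, rfl⟩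
  have hq32 : q3 = 132 * w ^ 2 * q2 ^ 3 := by rw [hq3e, hq2e]; rfl
  obtain ⟨c, hc⟩ : ∃ c, c = cc w q := ⟨_, rfl⟩
  rw [← hc] at hs hn hE
  have hc' : c = 1 / (30 * w * (q3 : ℝ) ^ 2) := by rw [hc, hq3e]; rfl
  rw [← hq3e] at hq3
  rw [← hq2e] at hq2
  have hwR : (1 : ℝ) ≤ w := by exact_mod_cast hw
  have hq3R : (1 : ℝ) ≤ q3 := by exact_mod_cast hq3
  have hn0 : (0 : ℝ) ≤ n := Nat.cast_nonneg _
  have hc0 : 0 < c := by rw [hc']; positivity
  have hcq : c * (30 * w * (q3 : ℝ) ^ 2) = 1 := by rw [hc']; field_simp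
  have hc1 : c ≤ 1 := by
    have : (1 : ℝ) ≤ 30 * w * (q3 : ℝ) ^ 2 := by
      have : (1 : ℝ) ≤ (q3 : ℝ) ^ 2 := one_le_pow₀ hq3R
      nlinarith
    nlinarith
  have hnn : 30 * w * q3 ^ 2 ≤ n := by
    have h1 : (30 * (w : ℝ) * (q3 : ℝ) ^ 2) * 1 ≤ (30 * w * (q3 : ℝ) ^ 2) * (c * n) :=
      mul_le_mul_of_nonneg_left hn (by positivity)
    have h2 : (30 * (w : ℝ) * (q3 : ℝ) ^ 2) * (c * n) = (n : ℝ) := by
      calc (30 * (w : ℝ) * (q3 : ℝ) ^ 2) * (c * (n : ℝ)) =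
          (c * (30 * w * (q3 : ℝ) ^ 2)) * (n : ℝ) := by ring
        _ = (n : ℝ) := by rw [hcq, one_mul]
    rw [h2, mul_one] at h1
    exact_mod_cast h1
  -- a large piece
  obtain ⟨PP, h1, h2, h3⟩ := h.pieces
  have hE0 : (0 : ℝ) < #E := lt_of_lt_of_le (by positivity) hE
  have hEsum : #E ≤ ∑ P ∈ PP, #P := by
    refine (Finset.card_le_card (t := PP.biUnion id) fun p hp => ?_).trans Finset.card_biUnion_le
    obtain ⟨P, hP, hp'⟩ := (h3 p).1 hp
    exact mem_biUnion.2 ⟨P, hP, hp'⟩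
  obtain ⟨P, hP, hPE⟩ : ∃ P ∈ PP, #E ≤ #PP * #P := by
    have hne : PP.Nonempty := by
      rw [Finset.nonempty_iff_ne_empty]
      intro h0
      rw [h0] at hEsum
      simp at hEsum
      rw [hEsum] at hE0
      simp at hE0
    obtain ⟨P, hP, hmax⟩ := Finset.exists_max_image PP (fun P => #P) hne
    refine ⟨P, hP, hEsum.trans ?_⟩
    rw [← smul_eq_mul, ← Finset.sum_const]
    exact Finset.sum_le_sum fun P' hP' => hmax P' hP'
  obtain ⟨E0, hE0p, hE0E, hE0c⟩ := Piece.neg_all s P (h2 P hP)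
  obtain ⟨L, N, D, hL, -, hD, hLE⟩ := hE0p
  have hPsub : P ⊆ E := fun p hp => (h3 p).2 ⟨P, hP, hp⟩
  have htot : (#E : ℝ) ≤ (2 ^ s * (T + s).choose s * 32 ^ s : ℕ) * #E0 := by
    have : #E ≤ 2 ^ s * (T + s).choose s * 32 ^ s * #E0 := by
      calc #E ≤ #PP * #P := hPE
        _ ≤ (2 ^ s * (T + s).choose s) * (32 ^ s * #E0) := Nat.mul_le_mul h1 hE0c
        _ = _ := by ring
    exact_mod_cast this
  -- exponents
  have hsc : (s : ℝ) ≤ n := by nlinarith
  have hTn : (T : ℝ) ≤ w * n := by exact_mod_cast hT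
  have hfac : ((2 ^ s * (T + s).choose s * 32 ^ s : ℕ) : ℝ) ≤ (2 : ℝ) ^ ((n : ℝ) / q3 - c * n) := by
    have h5 := choose_le T s (8 * w * q3)
    obtain ⟨x, hx⟩ : ∃ x : ℝ, x = (1 / 2 : ℝ) ^ (8 * w * q3) := ⟨_, rfl⟩
    rw [← hx] at h5
    have hx0 : 0 ≤ x := by rw [hx]; positivity
    have hxb : x * (8 * w * q3) ≤ 1 := by
      rw [hx, one_div, inv_pow, inv_mul_le_iff₀ (by positivity), mul_one]
      exact_mod_cast (Nat.lt_two_pow_self (n := 8 * w * q3)).le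
    have h6 : ((2 ^ s * (T + s).choose s * 32 ^ s : ℕ) : ℝ) ≤
        (2 : ℝ) ^ (6 * (s : ℝ) + (2 * x * (T + s) + (8 * w * q3 : ℕ) * s)) := by
      rw [Real.rpow_add (by norm_num) (6 * (s : ℝ))]
      have h7 : ((2 ^ s * (T + s).choose s * 32 ^ s : ℕ) : ℝ) =
          (2 : ℝ) ^ (6 * (s : ℝ)) * ((T + s).choose s : ℝ) := by
        rw [mul_comm 6, Real.rpow_mul (by norm_num), Real.rpow_natCast,
          ← Real.rpow_natCast_mul (by norm_num)]
        push_cast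
        rw [Real.rpow_mul (by norm_num), Real.rpow_natCast,
          show ((2 : ℝ) ^ s) ^ (6 : ℝ) = (2 ^ s) ^ 6 by
            rw [show (6 : ℝ) = ((6 : ℕ) : ℝ) by norm_num, Real.rpow_natCast],
          ← pow_mul, mul_comm s 6, pow_mul, show (2 : ℝ) ^ 6 = 2 * 32 by norm_num, mul_pow]
        ring
      rw [h7]
      exact mul_le_mul_of_nonneg_left h5 (by positivity)
    refine h6.trans (Real.rpow_le_rpow_of_exponent_le (by norm_num) ?_)
    have h8 : 2 * x * (T + s) ≤ n / q3 / 2 := by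
      rw [div_div, le_div_iff₀ (by positivity)]
      have h9 : (T : ℝ) + s ≤ 2 * (w * n) := by nlinarith
      calc 2 * x * ((T : ℝ) + s) * (q3 * 2) ≤ 2 * x * (2 * (w * n)) * (q3 * 2) := by gcongr
        _ = x * (8 * w * q3) * (n : ℝ) := by ring
        _ ≤ 1 * (n : ℝ) := by gcongr
        _ = (n : ℝ) := one_mul _
    have h10 : 6 * (s : ℝ) + (8 * w * q3 : ℕ) * s + c * n ≤ n / q3 / 2 := by
      have h11 : 6 * (s : ℝ) + (8 * w * q3 : ℕ) * s + c * n ≤ (7 + 8 * w * q3) * (c * n) := by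
        push_cast
        have h12 : (6 + 8 * (w : ℝ) * q3) * s ≤ (6 + 8 * w * q3) * (c * n) :=
          mul_le_mul_of_nonneg_left hs (by positivity)
        linarith
      refine h11.trans ?_
      rw [div_div, le_div_iff₀ (by positivity)]
      have h13 : (7 + 8 * (w : ℝ) * q3) * (q3 * 2) ≤ 30 * w * (q3 : ℝ) ^ 2 := by
        have h14 : (1 : ℝ) ≤ w * q3 := by nlinarith
        have h15 : (7 + 8 * (w : ℝ) * q3) ≤ 15 * (w * q3) := by linarith
        calc (7 + 8 * (w : ℝ) * q3) * (q3 * 2) ≤ 15 * (w * q3) * (q3 * 2) := by gcongr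
          _ = _ := by ring
      calc (7 + 8 * (w : ℝ) * q3) * (c * n) * (q3 * 2)
          = ((7 + 8 * (w : ℝ) * q3) * (q3 * 2)) * (c * n) := by ring
        _ ≤ (30 * w * (q3 : ℝ) ^ 2) * (c * n) := by gcongr
        _ = (c * (30 * w * (q3 : ℝ) ^ 2)) * (n : ℝ) := by ring
        _ = (n : ℝ) := by rw [hcq, one_mul]
    have h16 : (n : ℝ) / q3 = n / q3 / 2 + n / q3 / 2 := by ring
    linarith
  have hE0' : (2 : ℝ) ^ (-((n : ℝ) / q3)) * 4 ^ n ≤ #E0 := by
    have h5 : (2 : ℝ) ^ (-(c * n)) * 4 ^ n ≤ (2 : ℝ) ^ ((n : ℝ) / q3 - c * n) * #E0 :=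
      hE.trans (htot.trans (mul_le_mul_of_nonneg_right hfac (Nat.cast_nonneg _)))
    have h6 : (2 : ℝ) ^ (-(c * n)) = (2 : ℝ) ^ ((n : ℝ) / q3 - c * n) * 2 ^ (-((n : ℝ) / q3)) := by
      rw [← Real.rpow_add (by norm_num)]; congr 1; ring
    rw [h6, mul_assoc] at h5
    exact le_of_mul_le_mul_left h5 (by positivity)
  obtain ⟨L', h4, h5, h6⟩ := lifted_clean T w q M L E0 D hL hD
    (fun p => by rw [hLE]; simp) hw hq hT (by
      rw [← hq2e]
      refine le_trans ?_ hnn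
      rw [hq32]
      calc 1484 * (w * q2) ^ 4 * q2 = (w ^ 4 * q2 ^ 5) * 1484 := by ring
        _ ≤ (w ^ 4 * q2 ^ 5) * (522720 * (w * q2)) := by
            refine Nat.mul_le_mul_left _ ?_
            have : 1 ≤ w * q2 := Nat.mul_pos hw hq2
            omega
        _ = 30 * w * (132 * w ^ 2 * q2 ^ 3) ^ 2 := by ring)
    (by rw [← hq3e]; exact hE0')
  exact ⟨L', h4, h5.trans (hE0E.trans hPsub), h6⟩

end Pool.Agent.Helper45.RC
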